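import Mathlib

/-!
Monotone circuits and monotone layered circuits.
-/

namespace Pool.Agent.V7H47.SM

/-- What a gate of a monotone circuit may read: an input variable, a constant, or the output of
another gate. The variables are indexed by `ι`, the gates by `G`. -/
inductive Wire (ι G : Type)
  | input : ι → Wire ι G
  | const : Bool → Wire ι G
  | gate : G → Wire ι G

/-- A monotone gate of fan-in two: an AND gate or an OR gate. -/
inductive Gate (ι G : Type)
  | and : Wire ι G → Wire ι G → Gate ι G
  | or : Wire ι G → Wire ι G → Gate ι G

/-- The bit carried by a wire, for the input `x` and the gate outputs `v`. -/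
def Wire.eval {ι G : Type} (x : ι → Bool) (v : G → Bool) : Wire ι G → Bool
  | .input i => x i
  | .const b => b
  | .gate g => v g

/-- The output of a gate, for the input `x` and the outputs `v` of the other gates. -/
def Gate.eval {ι G : Type} (x : ι → Bool) (v : G → Bool) : Gate ι G → Bool
  | .and a b => a.eval x v && b.eval x v
  | .or a b => a.eval x v || b.eval x v

/-- The depth of a wire (the largest number of gates on a path from an input to its end), for the
gate depths `d`. -/
def Wire.depth {ι G : Type} (d : G → ℕ) : Wire ι G → ℕ
  | .input _ => 0
  | .const _ => 0
  | .gate g => d g

/-- The depth of a gate, for the depths `d` of the other gates. -/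
def Gate.depth {ι G : Type} (d : G → ℕ) : Gate ι G → ℕ
  | .and a b => max (a.depth d) (b.depth d) + 1
  | .or a b => max (a.depth d) (b.depth d) + 1

/-- The outputs of the gates of a circuit on the input `x`. A monotone circuit is a list of gates;
the gate number `k` may read the gates with numbers below `k` (any other number reads as the
constant `0`). Its size is the length of the list. -/
def vals {ι : Type} (x : ι → Bool) (C : List (Gate ι ℕ)) : List Bool :=
  C.foldl (fun v g => v ++ [g.eval x (fun k => v.getD k false)]) []

/-- The depths of the gates of a circuit. -/
def depths {ι : Type} (C : List (Gate ι ℕ)) : List ℕ :=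
  C.foldl (fun d g => d ++ [g.depth (fun k => d.getD k 0)]) []

/-- A layered monotone circuit of width at most `w` is given by its gates `L t i`, `i < w`: the
gate `L t i` belongs to layer `t + 1`, it reads inputs, constants and gates of layer `t` (below
the first layer there are no gates, the value `0` is read). `layer x L t` lists the outputs of the
gates of layer `t`. -/
def layer {ι : Type} {w : ℕ} (x : ι → Bool) (L : ℕ → Fin w → Gate ι (Fin w)) : ℕ → Fin w → Bool
  | 0 => fun _ => false
  | t + 1 => fun i => (L t i).eval x (layer x L t)

end Pool.Agent.V7H47.SM
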