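import Mathlib
import Pool.Agent.V7H47.SM.Defs

/-!
Basic facts on circuits.
-/

set_option linter.unusedSectionVars false

namespace Pool.Agent.V7H47.SM

variable {ι : Type}

lemma vals_snoc (x : ι → Bool) (C : List (Gate ι ℕ)) (g : Gate ι ℕ) :
    vals x (C ++ [g]) = vals x C ++ [g.eval x (fun k => (vals x C).getD k false)] := by
  simp [vals, List.foldl_append]

lemma depths_snoc (C : List (Gate ι ℕ)) (g : Gate ι ℕ) :
    depths (C ++ [g]) = depths C ++ [g.depth (fun k => (depths C).getD k 0)] := by
  simp [depths, List.foldl_append]

lemma length_vals (x : ι → Bool) (C : List (Gate ι ℕ)) : (vals x C).length = C.length := by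
  induction C using List.reverseRecOn with
  | nil => simp [vals]
  | append_singleton C g ih => rw [vals_snoc]; simp [ih]

lemma length_depths (C : List (Gate ι ℕ)) : (depths C).length = C.length := by
  induction C using List.reverseRecOn with
  | nil => simp [depths]
  | append_singleton C g ih => rw [depths_snoc]; simp [ih]

lemma vals_prefix (x : ι → Bool) {C C' : List (Gate ι ℕ)} (h : C <+: C') :
    vals x C <+: vals x C' := by
  obtain ⟨E, rfl⟩ := h
  induction E using List.reverseRecOn with
  | nil => simp
  | append_singleton E g ih =>
    rw [← List.append_assoc, vals_snoc]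
    exact ih.trans (List.prefix_append _ _)

lemma depths_prefix {C C' : List (Gate ι ℕ)} (h : C <+: C') : depths C <+: depths C' := by
  obtain ⟨E, rfl⟩ := h
  induction E using List.reverseRecOn with
  | nil => simp
  | append_singleton E g ih =>
    rw [← List.append_assoc, depths_snoc]
    exact ih.trans (List.prefix_append _ _)

lemma getD_prefix {α : Type} {v v' : List α} (h : v <+: v') (k : ℕ) (hk : k < v.length) (d : α) :
    v'.getD k d = v.getD k d := by
  obtain ⟨E, rfl⟩ := h
  rw [List.getD_append _ _ _ _ hk]

/-- The output of gate number `g`. -/
lemma vals_get (x : ι → Bool) (C : List (Gate ι ℕ)) (g : ℕ) (hg : g < C.length) :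
    (vals x C).getD g false
      = (C[g]).eval x (fun k => if k < g then (vals x C).getD k false else false) := by
  have h1 : C.take g ++ [C[g]] <+: C := by
    rw [List.take_concat_get' C g hg]
    exact List.take_prefix _ _
  have h2 := vals_prefix x h1
  have hl : (vals x (C.take g)).length = g := by
    rw [length_vals, List.length_take]; omega
  rw [vals_snoc] at h2
  rw [getD_prefix h2 g (by simp [hl]) false,
    List.getD_append_right _ _ _ _ (by rw [hl]), hl]
  simp only [Nat.sub_self, List.getD_cons_zero]
  congr 1
  funext k
  by_cases hk : k < g
  · simp only [hk, if_true]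
    exact (getD_prefix (vals_prefix x (List.take_prefix g C)) k (by rw [hl]; exact hk) false).symm
  · simp only [hk, if_false]
    rw [List.getD_eq_default]
    rw [hl]; omega

/-- The depth of gate number `g`. -/
lemma depths_get (C : List (Gate ι ℕ)) (g : ℕ) (hg : g < C.length) :
    (depths C).getD g 0
      = (C[g]).depth (fun k => if k < g then (depths C).getD k 0 else 0) := by
  have h1 : C.take g ++ [C[g]] <+: C := by
    rw [List.take_concat_get' C g hg]
    exact List.take_prefix _ _
  have h2 := depths_prefix h1
  have hl : (depths (C.take g)).length = g := by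
    rw [length_depths, List.length_take]; omega
  rw [depths_snoc] at h2
  rw [getD_prefix h2 g (by simp [hl]) 0,
    List.getD_append_right _ _ _ _ (by rw [hl]), hl]
  simp only [Nat.sub_self, List.getD_cons_zero]
  congr 1
  funext k
  by_cases hk : k < g
  · simp only [hk, if_true]
    exact (getD_prefix (depths_prefix (List.take_prefix g C)) k (by rw [hl]; exact hk) 0).symm
  · simp only [hk, if_false]
    rw [List.getD_eq_default]
    rw [hl]; omega

end Pool.Agent.V7H47.SM
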