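import Mathlib

/-!
The layered graph, and the adversary of the pebbling game on it.
-/

open Finset

set_option linter.unusedSectionVars false

namespace Pool.Agent.V7H47.SM

/-- A graph with a height function and two children of every vertex. -/
structure Geo (V : Type) where
  ht : V → ℕ
  ch : Bool → V → V
  root : V

section Geo
variable {V : Type} [Fintype V] [DecidableEq V] (G : Geo V)

/-- The descendant reached by a word. -/
def desc : V → List Bool → V
  | v, [] => v
  | v, b :: w => desc (G.ch b v) w

lemma desc_append (v : V) (w w' : List Bool) :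
    desc G v (w ++ w') = desc G (desc G v w) w' := by
  induction w generalizing v with
  | nil => rfl
  | cons b w ih => simp only [List.cons_append, desc]; exact ih _

/-- Every child is one lower. -/
def Graded : Prop := ∀ b v, 0 < G.ht v → G.ht (G.ch b v) + 1 = G.ht v

/-- A nonempty set of vertices of one height has more children than elements, unless it has at
least `w` children. -/
def Expands (w : ℕ) : Prop :=
  ∀ (R : Finset V) (h : ℕ), 0 < h → (∀ v ∈ R, G.ht v = h) → R.Nonempty →
    R.card ≤ (R.image (G.ch true) ∪ R.image (G.ch false)).card ∧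
    min w (R.card + 1) ≤ (R.image (G.ch true) ∪ R.image (G.ch false)).card

variable {G}

lemma ht_desc (hht : Graded G) {v : V} {w : List Bool} (hw : w.length ≤ G.ht v) :
    G.ht (desc G v w) + w.length = G.ht v := by
  induction w generalizing v with
  | nil => simp [desc]
  | cons b w ih =>
    simp only [List.length_cons] at hw
    have h1 := hht b v (by omega)
    have h2 := ih (v := G.ch b v) (by omega)
    simp only [desc, List.length_cons]
    omega

variable (G) in
/-- The path `w` from `v` avoids the set `a i` at distance `i`. -/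
def Avoids (a : ℕ → Finset V) (v : V) (w : List Bool) : Prop :=
  ∀ w₁, w₁ <+: w → w₁ ≠ [] → desc G v w₁ ∉ a w₁.length

variable (G) in
/-- There is a path from `v` to height zero that avoids `T`. -/
def Free (T : Finset V) (v : V) : Prop :=
  ∃ w : List Bool, w.length = G.ht v ∧ Avoids G (fun _ => T) v w

/-- A path which avoids few vertices near `v` can be changed into a path which avoids many vertices
far from `v`. -/
lemma reroute (hht : Graded G) (w d : ℕ) (hexp : Expands G w) (v : V) (T Z : Finset V)
    (κ : ℕ) (hT : T.card ≤ κ) (hZ : Z.card ≤ 3 * κ) (hd : d = 4 * κ) (hw : 4 * κ + 1 ≤ w)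
    (hv : d ≤ G.ht v) (hfree : Free G T v) :
    ∃ l : List Bool, l.length = G.ht v ∧ Avoids G (fun i => if i ≤ d then T else Z) v l := by
  classical
  set a : ℕ → Finset V := fun i => if i ≤ d then T else Z with ha
  set R : ℕ → Finset V := fun i => univ.filter
    (fun u => ∃ l : List Bool, l.length = i ∧ Avoids G a v l ∧ desc G v l = u) with hR
  set N : Finset V → Finset V := fun S => S.image (G.ch true) ∪ S.image (G.ch false) with hN
  have hRht : ∀ i ≤ G.ht v, ∀ u ∈ R i, G.ht u + i = G.ht v := by
    intro i hi u hu
    simp only [hR, mem_filter, mem_univ, true_and] at hu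
    obtain ⟨l, h1, _, rfl⟩ := hu
    have := ht_desc hht (v := v) (w := l) (by omega)
    omega
  have hstep : ∀ i, i < G.ht v → ∀ u ∈ N (R i), u ∉ a (i + 1) → u ∈ R (i + 1) := by
    intro i _ u hu hua
    have h1 : ∃ b, ∃ u' ∈ R i, G.ch b u' = u := by
      simp only [hN, mem_union, mem_image] at hu
      rcases hu with ⟨u', h1, h2⟩ | ⟨u', h1, h2⟩
      · exact ⟨true, u', h1, h2⟩
      · exact ⟨false, u', h1, h2⟩
    obtain ⟨b, u', hu', rfl⟩ := h1
    simp only [hR, mem_filter, mem_univ, true_and] at hu' ⊢
    obtain ⟨l, h2, h3, rfl⟩ := hu'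
    have h4 : desc G v (l ++ [b]) = G.ch b (desc G v l) := by
      rw [desc_append]; rfl
    refine ⟨l ++ [b], by simp [h2], ?_, h4⟩
    intro w₁ hw₁ hne
    rcases List.prefix_concat_iff.mp hw₁ with h5 | h5
    · rw [h5, h4, List.length_append, h2]
      exact hua
    · exact h3 w₁ h5 hne
  have hNcard : ∀ i, i < G.ht v → (N (R i)).card ≤
      (R (i + 1)).card + ((a (i + 1)).filter (fun u => G.ht u + (i + 1) = G.ht v)).card := by
    intro i hi
    refine le_trans (card_le_card ?_) (card_union_le _ _)
    intro u hu
    rw [mem_union]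
    by_cases hua : u ∈ a (i + 1)
    · right
      rw [mem_filter]
      refine ⟨hua, ?_⟩
      have h1 : ∃ b, ∃ u' ∈ R i, G.ch b u' = u := by
        simp only [hN, mem_union, mem_image] at hu
        rcases hu with ⟨u', h1, h2⟩ | ⟨u', h1, h2⟩
        · exact ⟨true, u', h1, h2⟩
        · exact ⟨false, u', h1, h2⟩
      obtain ⟨b, u', hu', rfl⟩ := h1
      have h2 := hRht i hi.le u' hu'
      have h3 := hht b u' (by omega)
      omega
    · left; exact hstep i hi u hu hua
  -- near `v` the sets are not empty
  have hnear : ∀ i ≤ d, (R i).Nonempty := by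
    intro i hi
    obtain ⟨l, h1, h2⟩ := hfree
    refine ⟨desc G v (l.take i), ?_⟩
    simp only [hR, mem_filter, mem_univ, true_and]
    refine ⟨l.take i, by rw [List.length_take]; omega, ?_, rfl⟩
    intro w₁ hw₁ hne
    have h3 : w₁.length ≤ d := by
      have := hw₁.length_le
      rw [List.length_take] at this
      omega
    simp only [ha, h3, if_true]
    exact h2 w₁ (hw₁.trans (List.take_prefix _ _)) hne
  have hgrow : ∀ i ≤ d, min w (i + 1) ≤ (R i).card +
      (T.filter (fun u => G.ht v ≤ G.ht u + i ∧ G.ht u < G.ht v)).card := by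
    intro i
    induction i with
    | zero =>
      intro _
      have h1 := (hnear 0 (Nat.zero_le _)).card_pos
      omega
    | succ i ih =>
      intro hi
      have h1 := ih (by omega)
      have h2 := (hexp (R i) (G.ht v - i) (by omega)
        (fun u hu => by have := hRht i (by omega) u hu; omega) (hnear i (by omega))).2
      have h3 := hNcard i (by omega)
      have h4 : (T.filter (fun u => G.ht v ≤ G.ht u + (i + 1) ∧ G.ht u < G.ht v)).card
          = (T.filter (fun u => G.ht v ≤ G.ht u + i ∧ G.ht u < G.ht v)).card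
            + (T.filter (fun u => G.ht u + (i + 1) = G.ht v)).card := by
        rw [← card_union_of_disjoint]
        · congr 1
          ext u
          simp only [mem_filter, mem_union]
          constructor
          · rintro ⟨h5, h6, h7⟩
            by_cases h8 : G.ht u + (i + 1) = G.ht v
            · right; exact ⟨h5, h8⟩
            · left; exact ⟨h5, by omega, h7⟩
          · rintro (⟨h5, h6, h7⟩ | ⟨h5, h6⟩)
            · exact ⟨h5, by omega, h7⟩
            · exact ⟨h5, by omega, by omega⟩
        · rw [disjoint_left]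
          intro u hu hu'
          simp only [mem_filter] at hu hu'
          omega
      have h5 : a (i + 1) = T := by simp only [ha, hi, if_true]
      rw [h5] at h3
      simp only [hN] at h3
      omega
  have hd1 : 3 * κ + 1 ≤ (R d).card := by
    have h1 := hgrow d le_rfl
    have h2 : (T.filter (fun u => G.ht v ≤ G.ht u + d ∧ G.ht u < G.ht v)).card ≤ κ :=
      (card_filter_le _ _).trans hT
    omega
  have hfar : ∀ i, d + i ≤ G.ht v → 3 * κ + 1 ≤ (R (d + i)).card +
      (Z.filter (fun u => G.ht v ≤ G.ht u + (d + i) ∧ G.ht u + d < G.ht v)).card := by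
    intro i
    induction i with
    | zero => intro _; rw [add_zero]; omega
    | succ i ih =>
      intro hi
      have h1 := ih (by omega)
      have h0 : (R (d + i)).Nonempty := by
        rw [← card_pos]
        have h2 : (Z.filter (fun u => G.ht v ≤ G.ht u + (d + i) ∧ G.ht u + d < G.ht v)).card
            ≤ 3 * κ := (card_filter_le _ _).trans hZ
        omega
      have h2 := (hexp (R (d + i)) (G.ht v - (d + i)) (by omega)
        (fun u hu => by have := hRht (d + i) (by omega) u hu; omega) h0).1
      have h3 := hNcard (d + i) (by omega)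
      have h4 : (Z.filter (fun u => G.ht v ≤ G.ht u + (d + (i + 1)) ∧ G.ht u + d < G.ht v)).card
          = (Z.filter (fun u => G.ht v ≤ G.ht u + (d + i) ∧ G.ht u + d < G.ht v)).card
            + (Z.filter (fun u => G.ht u + (d + i + 1) = G.ht v)).card := by
        rw [← card_union_of_disjoint]
        · congr 1
          ext u
          simp only [mem_filter, mem_union]
          constructor
          · rintro ⟨h5, h6, h7⟩
            by_cases h8 : G.ht u + (d + i + 1) = G.ht v
            · right; exact ⟨h5, h8⟩
            · left; exact ⟨h5, by omega, h7⟩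
          · rintro (⟨h5, h6, h7⟩ | ⟨h5, h6⟩)
            · exact ⟨h5, by omega, h7⟩
            · exact ⟨h5, by omega, by omega⟩
        · rw [disjoint_left]
          intro u hu hu'
          simp only [mem_filter] at hu hu'
          omega
      have h5 : a (d + i + 1) = Z := by
        simp only [ha]
        rw [if_neg (by omega)]
      rw [h5] at h3
      simp only [hN] at h3
      rw [show d + (i + 1) = d + i + 1 by ring] at h4 ⊢
      omega
  have hlast := hfar (G.ht v - d) (by omega)
  have h1 : (Z.filter (fun u => G.ht v ≤ G.ht u + (d + (G.ht v - d)) ∧ G.ht u + d < G.ht v)).card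
      ≤ 3 * κ := (card_filter_le _ _).trans hZ
  have h2 : 0 < (R (d + (G.ht v - d))).card := by omega
  obtain ⟨u, hu⟩ := card_pos.mp h2
  simp only [hR, mem_filter, mem_univ, true_and] at hu
  obtain ⟨l, h3, h4, _⟩ := hu
  exact ⟨l, by omega, h4⟩

variable (G) in
/-- The invariant of the pebbling adversary: the vertices of `P` are false, the other vertices of
`F` are true, and `t` more rounds can be played. -/
structure Peb (κ : ℕ) (F P : Finset V) (t : ℕ) : Prop where
  sub : P ⊆ F
  root : G.root ∈ F → G.root ∈ P
  inv : ∀ v, v = G.root ∨ v ∈ P → 4 * κ * t + 1 ≤ G.ht v ∧ Free G (F \ P) v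

lemma Peb.restrict {κ : ℕ} {F P : Finset V} {t : ℕ} (h : Peb G κ F P t) {F' : Finset V}
    (hF : F' ⊆ F) : Peb G κ F' (P ∩ F') t := by
  refine ⟨inter_subset_right, fun h1 => ?_, ?_⟩
  · rw [mem_inter]; exact ⟨h.root (hF h1), h1⟩
  · intro v hv
    have h1 : v = G.root ∨ v ∈ P := hv.imp id (fun h => (mem_inter.mp h).1)
    obtain ⟨h2, l, h3, h4⟩ := h.inv v h1
    refine ⟨h2, l, h3, ?_⟩
    intro w₁ hw₁ hne hmem
    apply h4 w₁ hw₁ hne
    simp only [mem_sdiff, mem_inter, not_and] at hmem ⊢
    exact ⟨hF hmem.1, fun h5 => hmem.2 h5 hmem.1⟩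

/-- One round of the pebbling adversary. -/
lemma Peb.round (hht : Graded G) {w κ : ℕ} (hexp : Expands G w) (hw : 4 * κ + 1 ≤ w)
    {F P : Finset V} {t : ℕ} (h : Peb G κ F P (t + 1)) (hF : F.card ≤ κ) {Z : Finset V}
    (hZ : Z.card ≤ 3 * κ) (hFZ : F ⊆ Z) :
    ∃ P' : Finset V, (∀ u ∈ F, (u ∈ P' ↔ u ∈ P)) ∧ Peb G κ Z P' t := by
  classical
  have hex : ∀ v, v = G.root ∨ v ∈ P → ∃ l : List Bool, l.length = G.ht v ∧
      Avoids G (fun i => if i ≤ 4 * κ then F \ P else Z) v l := by
    intro v hv
    obtain ⟨h1, h2⟩ := h.inv v hv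
    have h3 : 4 * κ * (t + 1) = 4 * κ * t + 4 * κ := by ring
    exact reroute hht w (4 * κ) hexp v (F \ P) Z κ ((card_le_card sdiff_subset).trans hF) hZ rfl
      hw (by omega) h2
  choose! wd hwd1 hwd2 using hex
  set P' : Finset V := Z.filter (fun u => u ∈ P ∨ u = G.root ∨ (u ∉ F ∧ ∃ v, (v = G.root ∨ v ∈ P) ∧
    ∃ w₁, w₁ <+: wd v ∧ w₁.length ≤ 4 * κ ∧ w₁ ≠ [] ∧ desc G v w₁ = u)) with hP'
  have hPF := h.sub
  -- the words avoid the true vertices
  have key : ∀ v, v = G.root ∨ v ∈ P → ∀ w₁, w₁ <+: wd v → w₁ ≠ [] → desc G v w₁ ∉ Z \ P' := by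
    intro v hv w₁ hw₁ hne hmem
    rw [mem_sdiff] at hmem
    obtain ⟨hmZ, hmP⟩ := hmem
    have h1 := hwd2 v hv w₁ hw₁ hne
    by_cases hlen : w₁.length ≤ 4 * κ
    · simp only [hlen, if_true] at h1
      apply hmP
      rw [hP', mem_filter]
      refine ⟨hmZ, ?_⟩
      by_cases hmF : desc G v w₁ ∈ F
      · left
        by_contra h2
        exact h1 (mem_sdiff.mpr ⟨hmF, h2⟩)
      · right; right
        exact ⟨hmF, v, hv, w₁, hw₁, hlen, hne, rfl⟩
    · simp only [hlen, if_false] at h1
      exact h1 hmZ
  refine ⟨P', ?_, ?_, ?_, ?_⟩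
  · intro u hu
    rw [hP', mem_filter]
    constructor
    · rintro ⟨_, h1 | h1 | ⟨h1, _⟩⟩
      · exact h1
      · rw [h1]; exact h.root (h1 ▸ hu)
      · exact absurd hu h1
    · intro h1; exact ⟨hFZ hu, Or.inl h1⟩
  · exact filter_subset _ _
  · intro h1
    rw [hP', mem_filter]
    exact ⟨h1, Or.inr (Or.inl rfl)⟩
  · intro v hv
    have hold : ∀ v, v = G.root ∨ v ∈ P → 4 * κ * t + 1 ≤ G.ht v ∧ Free G (Z \ P') v := by
      intro v hv
      have h1 := (h.inv v hv).1
      have h3 : 4 * κ * (t + 1) = 4 * κ * t + 4 * κ := by ring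
      exact ⟨by omega, wd v, hwd1 v hv, fun w₁ h4 h5 => key v hv w₁ h4 h5⟩
    rcases hv with hv | hv
    · exact hold v (Or.inl hv)
    · rw [hP', mem_filter] at hv
      obtain ⟨_, h1 | h1 | ⟨_, v', hv', w₁, h2, h3, h4, h5⟩⟩ := hv
      · exact hold v (Or.inr h1)
      · exact hold v (Or.inl h1)
      · obtain ⟨w₂, hw₂⟩ := h2
        have h6 := (h.inv v' hv').1
        have h7 : 4 * κ * (t + 1) = 4 * κ * t + 4 * κ := by ring
        have h8 := ht_desc hht (v := v') (w := w₁) (by omega)
        rw [h5] at h8
        refine ⟨by omega, w₂, ?_, ?_⟩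
        · have h9 := hwd1 v' hv'
          rw [← hw₂, List.length_append] at h9
          omega
        · intro w₃ h9 h10
          have h11 := key v' hv' (w₁ ++ w₃) (by
            rw [← hw₂]; exact (List.prefix_append_right_inj w₁).mpr h9) (by simp [h4])
          rw [desc_append, h5] at h11
          exact h11

end Geo

/-! ### The cylinder -/

section Cylinder

/-- The vertices of the cylinder. -/
abbrev CV (D w : ℕ) : Type := Fin (D + 1) × ZMod w

/-- The cylinder: the children of `(h, s)` are `(h - 1, s)` and `(h - 1, s + 1)`. -/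
def cylinder (D w : ℕ) : Geo (CV D w) where
  ht := fun v => v.1.val
  ch := fun b v => (⟨v.1.val - 1, by omega⟩, if b then v.2 + 1 else v.2)
  root := (Fin.last D, 0)

lemma cylinder_graded (D w : ℕ) : Graded (cylinder D w) := by
  intro b v hv
  simp only [cylinder] at hv ⊢
  omega

lemma cylinder_expands (D w : ℕ) [NeZero w] : Expands (cylinder D w) w := by
  intro R h hh hR hne
  set G := cylinder D w with hG
  have hinj : ∀ b, Set.InjOn (G.ch b) (R : Set (CV D w)) := by
    intro b x hx y hy hxy
    have h1 := hR x hx
    have h2 := hR y hy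
    simp only [hG, cylinder, Prod.mk.injEq] at hxy h1 h2
    apply Prod.ext
    · apply Fin.ext; omega
    · cases b <;> simpa using hxy.2
  have hc1 : (R.image (G.ch true)).card = R.card := card_image_of_injOn (hinj true)
  have hc0 : (R.image (G.ch false)).card = R.card := card_image_of_injOn (hinj false)
  have hge : R.card ≤ (R.image (G.ch true) ∪ R.image (G.ch false)).card := by
    rw [← hc1]; exact card_le_card subset_union_left
  refine ⟨hge, ?_⟩
  by_contra hcon
  push Not at hcon
  have hlt : (R.image (G.ch true) ∪ R.image (G.ch false)).card ≤ R.card := by omega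
  have hltw : R.card < w := by omega
  have heq : R.image (G.ch false) = R.image (G.ch true) ∪ R.image (G.ch false) :=
    eq_of_subset_of_card_le subset_union_right (by omega)
  have hsub : R.image (G.ch true) ⊆ R.image (G.ch false) := by
    rw [heq]; exact subset_union_left
  -- closed under adding one
  obtain ⟨v₀, hv₀⟩ := hne
  have hclosed : ∀ k : ℕ, (v₀.1, v₀.2 + (k : ZMod w)) ∈ R := by
    intro k
    induction k with
    | zero => simpa using hv₀
    | succ k ih =>
      have h1 := hsub (mem_image_of_mem _ ih)
      rw [mem_image] at h1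
      obtain ⟨u, hu, hu'⟩ := h1
      have h2 := hR u hu
      have h3 := hR _ ih
      simp only [hG, cylinder, Prod.mk.injEq, if_true] at hu' h2 h3
      have h4 : u = (v₀.1, v₀.2 + ((k + 1 : ℕ) : ZMod w)) := by
        apply Prod.ext
        · apply Fin.ext
          simp only
          omega
        · have h5 := hu'.2
          simp only [Bool.false_eq_true, if_false] at h5
          rw [h5]
          push_cast
          ring
      rw [← h4]; exact hu
  have hall : (univ : Finset (ZMod w)).image (fun s => (v₀.1, s)) ⊆ R := by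
    intro u hu
    rw [mem_image] at hu
    obtain ⟨s, _, rfl⟩ := hu
    have h1 := hclosed (s - v₀.2).val
    rw [ZMod.natCast_zmod_val] at h1
    simpa using h1
  have h1 := card_le_card hall
  rw [card_image_of_injective _ (fun a b h => by simpa using h), card_univ, ZMod.card] at h1
  omega

end Cylinder

end Pool.Agent.V7H47.SM
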