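import Mathlib

/-!
Cylinders, density, and the decomposition of a set of labellings into dense pieces; popular
patterns of a set of bit strings.
-/

open Finset

set_option linter.unusedSectionVars false

namespace Pool.Agent.V7H47.SM

section Alice
variable {V : Type} [Fintype V] [DecidableEq V] {M : ℕ}

/-- The labellings of `A` that agree with `β` on `S`. -/
def cyl (A : Finset (V → Fin M)) (S : Finset V) (β : V → Fin M) : Finset (V → Fin M) :=
  A.filter (fun x => ∀ u ∈ S, x u = β u)

lemma mem_cyl {A : Finset (V → Fin M)} {S : Finset V} {β x : V → Fin M} :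
    x ∈ cyl A S β ↔ x ∈ A ∧ ∀ u ∈ S, x u = β u := by
  simp [cyl]

lemma cyl_subset (A : Finset (V → Fin M)) (S : Finset V) (β : V → Fin M) : cyl A S β ⊆ A :=
  filter_subset _ _

lemma cyl_empty (A : Finset (V → Fin M)) (β : V → Fin M) : cyl A ∅ β = A := by
  ext x; simp [mem_cyl]

lemma cyl_cyl (A : Finset (V → Fin M)) (R S : Finset V) (β γ : V → Fin M) (h : Disjoint R S) :
    cyl (cyl A R β) S γ = cyl A (R ∪ S) (fun u => if u ∈ R then β u else γ u) := by
  ext x
  simp only [mem_cyl, mem_union]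
  constructor
  · rintro ⟨⟨h1, h2⟩, h3⟩
    refine ⟨h1, fun u hu => ?_⟩
    by_cases hR : u ∈ R
    · simp [hR, h2 u hR]
    · simp only [hR, if_false]
      exact h3 u (hu.resolve_left hR)
  · rintro ⟨h1, h2⟩
    refine ⟨⟨h1, fun u hu => ?_⟩, fun u hu => ?_⟩
    · have := h2 u (Or.inl hu)
      simpa [hu] using this
    · have h4 : u ∉ R := fun hR => (Finset.disjoint_left.mp h) hR hu
      have := h2 u (Or.inr hu)
      simpa [h4] using this

/-- `A` is dense outside `F`: fixing the labels of a set `S` of vertices outside `F` leaves at most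
a fraction `(2 / M) ^ |S|`. -/
def Dense (A : Finset (V → Fin M)) (F : Finset V) : Prop :=
  ∀ S : Finset V, Disjoint S F → ∀ β, (cyl A S β).card * M ^ S.card ≤ 2 ^ S.card * A.card

/-- Restoring density. -/
lemma restore (A : Finset (V → Fin M)) (β₀ : V → Fin M) :
    ∃ (R : Finset V) (β : V → Fin M), A.card * 2 ^ R.card ≤ (cyl A R β).card * M ^ R.card ∧
      Dense (cyl A R β) R := by
  classical
  set 𝓡 : Finset (Finset V) := univ.filter
    (fun R => ∃ β : V → Fin M, A.card * 2 ^ R.card ≤ (cyl A R β).card * M ^ R.card) with h𝓡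
  have hne : 𝓡.Nonempty := by
    refine ⟨∅, ?_⟩
    rw [h𝓡, mem_filter]
    refine ⟨by simp, β₀, ?_⟩
    simp [cyl_empty]
  obtain ⟨R, hR, hmax⟩ := exists_max_image 𝓡 Finset.card hne
  rw [h𝓡, mem_filter] at hR
  obtain ⟨_, β, hβ⟩ := hR
  refine ⟨R, β, hβ, ?_⟩
  intro S hS γ
  rcases S.eq_empty_or_nonempty with h | h
  · subst h
    simp [cyl_empty]
  · have hdisj : Disjoint R S := hS.symm
    rw [cyl_cyl _ _ _ _ _ hdisj]
    have hcard : (R ∪ S).card = R.card + S.card := card_union_of_disjoint hdisj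
    have hnot : (R ∪ S) ∉ 𝓡 := by
      intro hmem
      have h1 := hmax _ hmem
      have := h.card_pos
      omega
    rw [h𝓡, mem_filter] at hnot
    push Not at hnot
    have h2 := hnot (mem_univ _) (fun u => if u ∈ R then β u else γ u)
    rw [hcard, pow_add, pow_add] at h2
    set X := (cyl A (R ∪ S) (fun u => if u ∈ R then β u else γ u)).card
    set Y := (cyl A R β).card
    have h3 : X * M ^ S.card * M ^ R.card < 2 ^ S.card * Y * M ^ R.card := by
      calc X * M ^ S.card * M ^ R.card = X * (M ^ R.card * M ^ S.card) := by ring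
        _ < A.card * (2 ^ R.card * 2 ^ S.card) := h2
        _ = (A.card * 2 ^ R.card) * 2 ^ S.card := by ring
        _ ≤ (Y * M ^ R.card) * 2 ^ S.card := Nat.mul_le_mul_right _ hβ
        _ = 2 ^ S.card * Y * M ^ R.card := by ring
    exact (Nat.lt_of_mul_lt_mul_right h3).le

lemma card_le_of_fixed (A : Finset (V → Fin M)) (F : Finset V) (α : V → Fin M)
    (h : ∀ x ∈ A, ∀ u ∈ F, x u = α u) : A.card ≤ M ^ (Fᶜ).card := by
  have h1 : Fintype.card ({u // u ∈ Fᶜ} → Fin M) = M ^ (Fᶜ).card := by
    rw [Fintype.card_fun, Fintype.card_fin, Fintype.card_coe]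
  rw [← h1, ← card_univ]
  apply card_le_card_of_injOn (fun x => (fun u : {u // u ∈ Fᶜ} => x u)) (fun _ _ => by simp)
  intro x hx y hy hxy
  funext u
  by_cases hu : u ∈ F
  · rw [h x hx u hu, h y hy u hu]
  · exact congrFun hxy ⟨u, by simpa using hu⟩

/-- Every set of labellings is, up to a small error, covered by dense pieces with few fixed
labels. -/
lemma pieces (κ : ℕ) (n : ℕ) : ∀ A : Finset (V → Fin M), A.card ≤ n →
    ∃ Err ⊆ A, Err.card * 2 ^ κ ≤ M ^ (Fintype.card V) ∧
      ∀ x ∈ A, x ∉ Err → ∃ (A' : Finset (V → Fin M)) (F : Finset V), A' ⊆ A ∧ x ∈ A' ∧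
        F.card ≤ κ ∧ (∀ x' ∈ A', ∀ u ∈ F, x' u = x u) ∧ Dense A' F := by
  induction n with
  | zero =>
    intro A hA
    have : A = ∅ := by rw [← card_eq_zero]; omega
    subst this
    exact ⟨∅, by simp, by simp, by simp⟩
  | succ n ih =>
    intro A hA
    by_cases hsmall : A.card * 2 ^ κ ≤ M ^ (Fintype.card V)
    · exact ⟨A, Subset.rfl, hsmall, fun x hx hx' => absurd hx hx'⟩
    push Not at hsmall
    have hA0 : 0 < A.card := by
      rcases Nat.eq_zero_or_pos A.card with h | h
      · rw [h] at hsmall; omega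
      · exact h
    obtain ⟨x₀, hx₀⟩ := card_pos.mp hA0
    obtain ⟨R, β, hR, hdense⟩ := restore A x₀
    set P := cyl A R β with hP
    have hPc : P.card ≤ M ^ (Rᶜ).card :=
      card_le_of_fixed P R β (fun x hx u hu => (mem_cyl.mp hx).2 u hu)
    have hRc : (Rᶜ).card + R.card = Fintype.card V := by
      rw [card_compl]
      have := card_le_univ R
      omega
    have h1 : A.card * 2 ^ R.card ≤ M ^ (Fintype.card V) := by
      calc A.card * 2 ^ R.card ≤ P.card * M ^ R.card := hR
        _ ≤ M ^ (Rᶜ).card * M ^ R.card := Nat.mul_le_mul_right _ hPc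
        _ = M ^ (Fintype.card V) := by rw [← pow_add, hRc]
    have hRκ : R.card ≤ κ := by
      by_contra h
      push Not at h
      have h2 : 2 ^ κ ≤ 2 ^ R.card := Nat.pow_le_pow_right (by norm_num) h.le
      have h3 : A.card * 2 ^ κ ≤ A.card * 2 ^ R.card := Nat.mul_le_mul_left _ h2
      omega
    have hP0 : 0 < P.card := by
      rcases Nat.eq_zero_or_pos P.card with h | h
      · rw [h] at hR
        have : 0 < A.card * 2 ^ R.card := by positivity
        omega
      · exact h
    have hPA : P ⊆ A := cyl_subset _ _ _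
    have hcard : (A \ P).card ≤ n := by
      rw [card_sdiff_of_subset hPA]; omega
    obtain ⟨Err, hE1, hE2, hE3⟩ := ih (A \ P) hcard
    refine ⟨Err, hE1.trans sdiff_subset, hE2, ?_⟩
    intro x hx hxE
    by_cases hxP : x ∈ P
    · refine ⟨P, R, hPA, hxP, hRκ, ?_, hdense⟩
      intro x' hx' u hu
      rw [(mem_cyl.mp hx').2 u hu, (mem_cyl.mp hxP).2 u hu]
    · obtain ⟨A', F, h2, h3, h4, h5, h6⟩ := hE3 x (mem_sdiff.mpr ⟨hx, hxP⟩) hxE
      exact ⟨A', F, h2.trans sdiff_subset, h3, h4, h5, h6⟩

end Alice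

section Bob
variable {W : Type} [Fintype W] [DecidableEq W]

/-- Removing the strings of `B` with a rare pattern on at most `κ` places. -/
lemma patterns (κ κ' : ℕ) (B : Finset (W → Bool)) :
    ∃ Err ⊆ B, Err.card * 2 ^ κ' ≤ (2 * Fintype.card W + 1) ^ κ * 2 ^ (Fintype.card W) ∧
      ∀ y ∈ B, y ∉ Err → ∀ E : Finset W, E.card ≤ κ →
        2 ^ (Fintype.card W) ≤ 2 ^ κ' * (B.filter (fun y' => ∀ w ∈ E, y' w = y w)).card := by
  classical
  -- an index of a pattern
  set sat : (Fin κ → Option (W × Bool)) → (W → Bool) → Prop :=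
    fun e y => ∀ i w b, e i = some (w, b) → y w = b with hsat
  set rare : Finset (Fin κ → Option (W × Bool)) := univ.filter
    (fun e => 2 ^ κ' * (B.filter (fun y => sat e y)).card < 2 ^ (Fintype.card W)) with hrare
  set Err := rare.biUnion (fun e => B.filter (fun y => sat e y)) with hErr
  refine ⟨Err, ?_, ?_, ?_⟩
  · intro y hy
    rw [hErr, mem_biUnion] at hy
    obtain ⟨e, _, hy⟩ := hy
    exact (mem_filter.mp hy).1
  · have h1 : Err.card ≤ ∑ e ∈ rare, (B.filter (fun y => sat e y)).card := card_biUnion_le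
    calc Err.card * 2 ^ κ' ≤ (∑ e ∈ rare, (B.filter (fun y => sat e y)).card) * 2 ^ κ' :=
          Nat.mul_le_mul_right _ h1
      _ = ∑ e ∈ rare, 2 ^ κ' * (B.filter (fun y => sat e y)).card := by
          rw [sum_mul]; exact sum_congr rfl fun e _ => mul_comm _ _
      _ ≤ ∑ _e ∈ rare, 2 ^ (Fintype.card W) := by
          refine sum_le_sum fun e he => ?_
          rw [hrare, mem_filter] at he
          exact he.2.le
      _ = rare.card * 2 ^ (Fintype.card W) := by rw [sum_const, smul_eq_mul]
      _ ≤ (2 * Fintype.card W + 1) ^ κ * 2 ^ (Fintype.card W) := by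
          apply Nat.mul_le_mul_right
          refine (card_le_univ _).trans (le_of_eq ?_)
          rw [Fintype.card_fun, Fintype.card_option, Fintype.card_prod, Fintype.card_bool,
            Fintype.card_fin, mul_comm]
  · intro y hy hyE E hE
    by_contra hcon
    push Not at hcon
    apply hyE
    -- list the elements of `E`
    obtain ⟨e, he1, he2⟩ : ∃ e : Fin κ → Option (W × Bool),
        (∀ w ∈ E, ∃ i, e i = some (w, y w)) ∧ ∀ i w b, e i = some (w, b) → w ∈ E ∧ b = y w := by
      refine ⟨fun i => if h : i.val < E.card then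
        some ((E.equivFin.symm ⟨i.val, h⟩ : W), y (E.equivFin.symm ⟨i.val, h⟩ : W)) else none,
        ?_, ?_⟩
      · intro w hw
        have h1 := (E.equivFin ⟨w, hw⟩).2
        refine ⟨⟨(E.equivFin ⟨w, hw⟩).val, by omega⟩, ?_⟩
        simp only [h1, dif_pos, Fin.eta, Equiv.symm_apply_apply]
      · intro i w b h
        simp only at h
        split_ifs at h with h1
        simp only [Option.some.injEq, Prod.mk.injEq] at h
        obtain ⟨h2, h3⟩ := h
        subst h2
        exact ⟨(E.equivFin.symm ⟨i.val, h1⟩).2, h3.symm⟩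
    have hsub : B.filter (fun y' => sat e y') ⊆ B.filter (fun y' => ∀ w ∈ E, y' w = y w) := by
      intro y' hy'
      rw [mem_filter] at hy' ⊢
      refine ⟨hy'.1, fun w hw => ?_⟩
      obtain ⟨i, hi⟩ := he1 w hw
      exact hy'.2 i w _ hi
    rw [hErr, mem_biUnion]
    refine ⟨e, ?_, ?_⟩
    · rw [hrare, mem_filter]
      refine ⟨mem_univ _, lt_of_le_of_lt (Nat.mul_le_mul_left _ (card_le_card hsub)) hcon⟩
    · rw [mem_filter]
      refine ⟨hy, fun i w b h => ?_⟩
      exact (he2 i w b h).2.symm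

end Bob

end Pool.Agent.V7H47.SM
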