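import Mathlib

/-!
The hypercontractive inequality for even exponents, with a short proof.
-/

open Finset

set_option linter.unusedSectionVars false

namespace Pool.Agent.V7H47.SM

/-- Two points, nonnegative case. -/
lemma two_point_aux (a z : ℝ) (ha : 0 ≤ a) (hz : 0 ≤ z) (j : ℕ) :
    0 ≤ (a + z) ^ (2 * j) + (a - z) ^ (2 * j) ∧
    a * ((a + z) ^ (2 * j) - (a - z) ^ (2 * j)) ≤
      2 * j * z * ((a + z) ^ (2 * j) + (a - z) ^ (2 * j)) ∧
    (a + z) ^ (2 * j) + (a - z) ^ (2 * j) ≤ 2 * (a ^ 2 + 4 * j * z ^ 2) ^ j := by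
  induction j with
  | zero => simp; norm_num
  | succ j ih =>
    obtain ⟨h0, h1, h2⟩ := ih
    set E := (a + z) ^ (2 * j) + (a - z) ^ (2 * j) with hE
    set O := (a + z) ^ (2 * j) - (a - z) ^ (2 * j) with hO
    have e1 : (a + z) ^ (2 * (j + 1)) = (a ^ 2 + z ^ 2 + 2 * a * z) * (a + z) ^ (2 * j) := by
      rw [mul_add, pow_add]; ring
    have e2 : (a - z) ^ (2 * (j + 1)) = (a ^ 2 + z ^ 2 - 2 * a * z) * (a - z) ^ (2 * j) := by
      rw [mul_add, pow_add]; ring
    have hE' : (a + z) ^ (2 * (j + 1)) + (a - z) ^ (2 * (j + 1))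
        = (a ^ 2 + z ^ 2) * E + 2 * a * z * O := by
      rw [e1, e2, hE, hO]; ring
    have hO' : (a + z) ^ (2 * (j + 1)) - (a - z) ^ (2 * (j + 1))
        = (a ^ 2 + z ^ 2) * O + 2 * a * z * E := by
      rw [e1, e2, hE, hO]; ring
    have hO0 : 0 ≤ O := by
      rw [hO, sub_nonneg, pow_mul, pow_mul]
      apply pow_le_pow_left₀ (sq_nonneg _)
      nlinarith [mul_nonneg ha hz]
    have hj : (0:ℝ) ≤ j := by positivity
    refine ⟨?_, ?_, ?_⟩
    · rw [hE']; positivity
    · rw [hE', hO']
      push_cast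
      have h3 : (a ^ 2 + z ^ 2) * (a * O) ≤ (a ^ 2 + z ^ 2) * (2 * j * z * E) :=
        mul_le_mul_of_nonneg_left h1 (by positivity)
      have h4 : 0 ≤ 2 * z ^ 3 * E := by positivity
      have h5 : 0 ≤ 2 * (j + 1) * z * (2 * a * z * O) := by positivity
      nlinarith [h3, h4, h5]
    · rw [hE']
      push_cast
      have h3 : 2 * z * (a * O) ≤ 2 * z * (2 * j * z * E) :=
        mul_le_mul_of_nonneg_left h1 (by positivity)
      have h4 : (a ^ 2 + z ^ 2) * E + 2 * a * z * O ≤ (a ^ 2 + (4 * (j + 1)) * z ^ 2) * E := by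
        nlinarith [mul_nonneg (sq_nonneg z) h0]
      have h5 : (a ^ 2 + 4 * j * z ^ 2) ^ j ≤ (a ^ 2 + 4 * (j + 1) * z ^ 2) ^ j := by
        apply pow_le_pow_left₀ (by positivity)
        nlinarith [sq_nonneg z]
      calc (a ^ 2 + z ^ 2) * E + 2 * a * z * O ≤ (a ^ 2 + (4 * (j + 1)) * z ^ 2) * E := h4
        _ ≤ (a ^ 2 + (4 * (j + 1)) * z ^ 2) * (2 * (a ^ 2 + 4 * (j + 1) * z ^ 2) ^ j) :=
          mul_le_mul_of_nonneg_left (h2.trans (by linarith)) (by positivity)
        _ = 2 * (a ^ 2 + 4 * (j + 1) * z ^ 2) ^ (j + 1) := by rw [pow_succ]; ring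

/-- Two points. -/
lemma two_point (a z : ℝ) (j : ℕ) :
    (a + z) ^ (2 * j) + (a - z) ^ (2 * j) ≤ 2 * (a ^ 2 + 4 * j * z ^ 2) ^ j := by
  have h := (two_point_aux |a| |z| (abs_nonneg _) (abs_nonneg _) j).2.2
  rw [sq_abs, sq_abs] at h
  refine le_trans (le_of_eq ?_) h
  have e : ∀ u v : ℝ, u = v ∨ u = -v → u ^ (2 * j) = v ^ (2 * j) := by
    rintro u v (h | h)
    · rw [h]
    · rw [h, pow_mul, pow_mul]; ring
  rcases abs_choice a with h1 | h1 <;> rcases abs_choice z with h2 | h2 <;> rw [h1, h2]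
  · rw [add_comm, e (a - z) (a + -z) (by left; ring), e (a + z) (a - -z) (by left; ring)]
  · rw [add_comm, e (a - z) (-a + z) (by right; ring), e (a + z) (-a - z) (by right; ring)]
  · rw [e (a + z) (-a + -z) (by right; ring), e (a - z) (-a - -z) (by right; ring)]

section Cube
variable {W : Type} [Fintype W] [DecidableEq W]

/-- The sign of a bit. -/
def sgn (b : Bool) : ℝ := if b then -1 else 1

lemma sgn_sq (b : Bool) : sgn b ^ 2 = 1 := by cases b <;> simp [sgn]

/-- The Walsh polynomial with coefficients `r ^ |T| * c T`, `T ⊆ U`. -/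
noncomputable def wp (r : ℝ) (c : Finset W → ℝ) (U : Finset W) (y : W → Bool) : ℝ :=
  ∑ T ∈ U.powerset, r ^ T.card * c T * ∏ w ∈ T, sgn (y w)

lemma wp_insert (r : ℝ) (c : Finset W → ℝ) (U : Finset W) (b : W) (hb : b ∉ U) (y : W → Bool) :
    wp r c (insert b U) y = wp r c U y + r * sgn (y b) * wp r (fun T => c (insert b T)) U y := by
  unfold wp
  rw [Finset.sum_powerset_insert hb, Finset.mul_sum]
  congr 1
  refine Finset.sum_congr rfl fun T hT => ?_
  have hbT : b ∉ T := fun h => hb (Finset.mem_powerset.1 hT h)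
  rw [Finset.card_insert_of_notMem hbT, Finset.prod_insert hbT]
  ring

lemma wp_flip (r : ℝ) (c : Finset W → ℝ) (U : Finset W) (b : W) (hb : b ∉ U) (y : W → Bool)
    (v : Bool) : wp r c U (Function.update y b v) = wp r c U y := by
  unfold wp
  refine Finset.sum_congr rfl fun T hT => ?_
  congr 1
  refine Finset.prod_congr rfl fun w hw => ?_
  have : w ≠ b := fun h => hb (Finset.mem_powerset.1 hT (h ▸ hw))
  rw [Function.update_of_ne this]

/-- Flipping a bit is a bijection of the cube. -/
lemma sum_flip (b : W) (F : (W → Bool) → ℝ) :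
    ∑ y, F (Function.update y b (! y b)) = ∑ y, F y := by
  refine Finset.sum_nbij' (fun y => Function.update y b (! y b))
    (fun y => Function.update y b (! y b)) (by simp) (by simp) ?_ ?_ (by simp)
  · intro y _; simp
  · intro y _; simp

/-- Convexity step. -/
lemma pow_add_le (j : ℕ) (g h : ℝ) (hg : 0 < g) (hh : 0 < h) (a b : ℝ) (ha : 0 ≤ a)
    (hb : 0 ≤ b) : (a + b) ^ j ≤ (g + h) ^ j * (g / (g + h) * (a ^ j / g ^ j) +
      h / (g + h) * (b ^ j / h ^ j)) := by
  have hgh : 0 < g + h := by linarith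
  have h1 := (convexOn_pow j).2 (show (a / g) ∈ Set.Ici (0:ℝ) by
      simp only [Set.mem_Ici]; positivity) (show (b / h) ∈ Set.Ici (0:ℝ) by
      simp only [Set.mem_Ici]; positivity) (show 0 ≤ g / (g + h) by positivity)
    (show 0 ≤ h / (g + h) by positivity) (by field_simp)
  simp only [smul_eq_mul] at h1
  have h2 : g / (g + h) * (a / g) + h / (g + h) * (b / h) = (a + b) / (g + h) := by
    field_simp
  rw [h2, div_pow, div_pow, div_pow, div_le_iff₀ (by positivity)] at h1
  linarith

/-- **Hypercontractivity** for even exponents. -/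
theorem hyper (j : ℕ) (hj : 1 ≤ j) (r : ℝ) (hr : 4 * j * r ^ 2 ≤ 1) (U : Finset W) :
    ∀ c : Finset W → ℝ, ∑ y : W → Bool, wp r c U y ^ (2 * j)
      ≤ 2 ^ (Fintype.card W) * (∑ T ∈ U.powerset, c T ^ 2) ^ j := by
  induction U using Finset.induction_on with
  | empty =>
    intro c
    simp only [wp, Finset.powerset_empty, Finset.sum_singleton, Finset.card_empty, pow_zero,
      one_mul, Finset.prod_empty, mul_one, Finset.sum_const, Finset.card_univ,
      Fintype.card_fun, Fintype.card_bool, nsmul_eq_mul]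
    rw [pow_mul]
    push_cast
    exact le_rfl
  | insert b U hb ih =>
    intro c
    set G : (W → Bool) → ℝ := wp r c U with hG
    set H : (W → Bool) → ℝ := wp r (fun T => c (insert b T)) U with hH
    set g := ∑ T ∈ U.powerset, c T ^ 2 with hg
    set h := ∑ T ∈ U.powerset, c (insert b T) ^ 2 with hh
    have hg0 : 0 ≤ g := Finset.sum_nonneg fun T _ => sq_nonneg _
    have hh0 : 0 ≤ h := Finset.sum_nonneg fun T _ => sq_nonneg _
    have iG : ∑ y, G y ^ (2 * j) ≤ 2 ^ (Fintype.card W) * g ^ j := ih c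
    have iH : ∑ y, H y ^ (2 * j) ≤ 2 ^ (Fintype.card W) * h ^ j := ih _
    have hsum : ∑ T ∈ (insert b U).powerset, c T ^ 2 = g + h := by
      rw [Finset.sum_powerset_insert hb]
    rw [hsum]
    -- the two point inequality, pointwise
    have h1 : ∑ y, wp r c (insert b U) y ^ (2 * j) ≤ ∑ y, (G y ^ 2 + H y ^ 2) ^ j := by
      have h2 := sum_flip b (fun y => wp r c (insert b U) y ^ (2 * j))
      have h3 : 2 * ∑ y, wp r c (insert b U) y ^ (2 * j)
          = ∑ y, (wp r c (insert b U) y ^ (2 * j) +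
            wp r c (insert b U) (Function.update y b (! y b)) ^ (2 * j)) := by
        rw [Finset.sum_add_distrib, h2]; ring
      have h4 : ∑ y, (wp r c (insert b U) y ^ (2 * j) +
            wp r c (insert b U) (Function.update y b (! y b)) ^ (2 * j))
          ≤ ∑ y, 2 * (G y ^ 2 + H y ^ 2) ^ j := by
        refine Finset.sum_le_sum fun y _ => ?_
        rw [wp_insert r c U b hb, wp_insert r c U b hb, wp_flip r c U b hb,
          wp_flip r _ U b hb, Function.update_self]
        have h5 : sgn (! y b) = - sgn (y b) := by cases y b <;> simp [sgn]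
        rw [h5]
        have h6 := two_point (G y) (r * sgn (y b) * H y) j
        have h7 : G y + r * -sgn (y b) * H y = G y - r * sgn (y b) * H y := by ring
        rw [← hG, ← hH, h7]
        refine h6.trans ?_
        have h8 : (r * sgn (y b) * H y) ^ 2 = r ^ 2 * H y ^ 2 := by
          rw [mul_pow, mul_pow, sgn_sq]; ring
        rw [h8]
        have h9 : (G y ^ 2 + 4 * j * (r ^ 2 * H y ^ 2)) ^ j ≤ (G y ^ 2 + H y ^ 2) ^ j := by
          apply pow_le_pow_left₀ (by positivity)
          nlinarith [mul_le_mul_of_nonneg_right hr (sq_nonneg (H y))]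
        linarith
      rw [← Finset.mul_sum] at h4
      linarith
    refine h1.trans ?_
    rcases eq_or_lt_of_le hg0 with hg1 | hg1
    · -- `g = 0`
      have h2 : ∑ y, G y ^ (2 * j) ≤ 0 := by
        refine iG.trans (le_of_eq ?_)
        rw [← hg1, zero_pow (by omega)]; ring
      have h3 : ∀ y, G y ^ (2 * j) = 0 := by
        intro y
        have h4 : ∀ y ∈ (Finset.univ : Finset (W → Bool)), 0 ≤ G y ^ (2 * j) := fun y _ => by
          rw [pow_mul]; positivity
        have h5 := Finset.single_le_sum h4 (Finset.mem_univ y)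
        exact le_antisymm (h5.trans h2) (h4 y (Finset.mem_univ y))
      have h4 : ∀ y, G y = 0 := fun y => pow_eq_zero_iff (by omega) |>.mp (h3 y)
      rw [← hg1, zero_add]
      refine le_trans (le_of_eq ?_) iH
      refine Finset.sum_congr rfl fun y _ => ?_
      rw [h4 y, pow_mul]; ring_nf
    rcases eq_or_lt_of_le hh0 with hh1 | hh1
    · have h2 : ∑ y, H y ^ (2 * j) ≤ 0 := by
        refine iH.trans (le_of_eq ?_)
        rw [← hh1, zero_pow (by omega)]; ring
      have h3 : ∀ y, H y ^ (2 * j) = 0 := by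
        intro y
        have h4 : ∀ y ∈ (Finset.univ : Finset (W → Bool)), 0 ≤ H y ^ (2 * j) := fun y _ => by
          rw [pow_mul]; positivity
        have h5 := Finset.single_le_sum h4 (Finset.mem_univ y)
        exact le_antisymm (h5.trans h2) (h4 y (Finset.mem_univ y))
      have h4 : ∀ y, H y = 0 := fun y => pow_eq_zero_iff (by omega) |>.mp (h3 y)
      rw [← hh1, add_zero]
      refine le_trans (le_of_eq ?_) iG
      refine Finset.sum_congr rfl fun y _ => ?_
      rw [h4 y, pow_mul]; ring_nf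
    have hgh : 0 < g + h := by linarith
    calc ∑ y, (G y ^ 2 + H y ^ 2) ^ j
        ≤ ∑ y, (g + h) ^ j * (g / (g + h) * ((G y ^ 2) ^ j / g ^ j) +
            h / (g + h) * ((H y ^ 2) ^ j / h ^ j)) :=
          Finset.sum_le_sum fun y _ => pow_add_le j g h hg1 hh1 _ _ (sq_nonneg _) (sq_nonneg _)
      _ = (g + h) ^ j * (g / (g + h) * ((∑ y, G y ^ (2 * j)) / g ^ j) +
            h / (g + h) * ((∑ y, H y ^ (2 * j)) / h ^ j)) := by
          rw [← Finset.mul_sum, Finset.sum_add_distrib, ← Finset.mul_sum, ← Finset.mul_sum,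
            ← Finset.sum_div, ← Finset.sum_div]
          simp only [← pow_mul]
      _ ≤ (g + h) ^ j * (g / (g + h) * (2 ^ (Fintype.card W)) +
            h / (g + h) * (2 ^ (Fintype.card W))) := by
          apply mul_le_mul_of_nonneg_left _ (by positivity)
          apply add_le_add
          · apply mul_le_mul_of_nonneg_left _ (by positivity)
            rw [div_le_iff₀ (by positivity)]; exact iG
          · apply mul_le_mul_of_nonneg_left _ (by positivity)
            rw [div_le_iff₀ (by positivity)]; exact iH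
      _ = 2 ^ (Fintype.card W) * (g + h) ^ j := by
          rw [← add_mul, ← add_div, div_self hgh.ne']; ring

end Cube

end Pool.Agent.V7H47.SM
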