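import Mathlib
import Pool.Agent.V7H47.SM.Hyper

/-!
A dense set of bit strings passes one of many spread tests.
-/

open Finset

set_option linter.unusedSectionVars false

namespace Pool.Agent.V7H47.SM

variable {W : Type} [Fintype W] [DecidableEq W] {α : Type}

set_option maxHeartbeats 1000000 in
open Classical in
/-- If `B` is a set of at least `2 ^ (|W| - κ)` bit strings and the family of tests `E x` (with
patterns `z x`), `x ∈ A`, is spread, then some string of `B` passes some test. -/
theorem exists_test (B : Finset (W → Bool)) (κ : ℕ) (hκ : 1 ≤ κ)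
    (hB : 2 ^ (Fintype.card W) ≤ 2 ^ κ * B.card)
    (A : Finset α) (hA : A.Nonempty) (E : α → Finset W) (z : α → W → Bool) (q M : ℕ)
    (hq : ∀ x ∈ A, (E x).card ≤ q) (hM0 : 0 < M)
    (hM : 128 * q * (κ + 1) ≤ M)
    (hspread : ∀ T : Finset W, T.Nonempty →
      (A.filter (fun x => T ⊆ E x)).card * M ^ T.card ≤ 2 * 2 ^ T.card * A.card) :
    ∃ x ∈ A, ∃ y ∈ B, ∀ w ∈ E x, y w = z x w := by
  by_contra hcon
  push Not at hcon
  have hM0' : (0:ℝ) < M := by exact_mod_cast hM0
  have hA0 : 0 < A.card := card_pos.mpr hA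
  have hA0' : (0:ℝ) < A.card := by exact_mod_cast hA0
  -- parameters
  set j := (κ + 1) / 2 with hj
  have hj1 : 1 ≤ j := by omega
  have hj2 : κ ≤ 2 * j := by omega
  have hj3 : 2 * j ≤ κ + 1 := by omega
  have hj0' : (0:ℝ) < j := by exact_mod_cast hj1
  set r : ℝ := Real.sqrt (1 / (4 * j)) with hr
  have hr2 : r ^ 2 = 1 / (4 * j) := by
    rw [hr, Real.sq_sqrt]; positivity
  have hr0 : 0 < r := by
    rw [hr]; apply Real.sqrt_pos.mpr; positivity
  -- the coefficients
  set C : Finset W → ℝ := fun T => ∑ x ∈ A, if T ⊆ E x then ∏ w ∈ T, sgn (z x w) else 0 with hC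
  set c : Finset W → ℝ := fun T => if T = ∅ then 0 else (r ^ T.card)⁻¹ * C T with hc
  have hid : ∀ y, ∑ x ∈ A, ∏ w ∈ E x, (1 + sgn (z x w) * sgn (y w))
      = A.card + wp r c univ y := by
    intro y
    have h1 : ∀ x ∈ A, ∏ w ∈ E x, (1 + sgn (z x w) * sgn (y w))
        = ∑ T ∈ (univ : Finset W).powerset, (if T ⊆ E x then ∏ w ∈ T, sgn (z x w) else 0) *
            ∏ w ∈ T, sgn (y w) := by
      intro x _
      rw [Finset.prod_one_add]
      rw [← Finset.sum_subset (Finset.powerset_mono.mpr (Finset.subset_univ (E x)))]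
      · refine Finset.sum_congr rfl fun T hT => ?_
        rw [if_pos (Finset.mem_powerset.mp hT), Finset.prod_mul_distrib]
      · intro T _ hT
        rw [Finset.mem_powerset] at hT
        rw [if_neg hT, zero_mul]
    rw [Finset.sum_congr rfl h1, Finset.sum_comm]
    unfold wp
    rw [← Finset.add_sum_erase _ _ (Finset.empty_mem_powerset (univ : Finset W)),
      ← Finset.add_sum_erase (univ : Finset W).powerset
        (fun T => r ^ T.card * c T * ∏ w ∈ T, sgn (y w))
        (Finset.empty_mem_powerset (univ : Finset W))]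
    simp only [Finset.empty_subset, if_true, Finset.prod_empty, mul_one, Finset.sum_const,
      nsmul_eq_mul]
    have h2 : c ∅ = 0 := by simp [hc]
    rw [h2, mul_zero, zero_add]
    congr 1
    refine Finset.sum_congr rfl fun T hT => ?_
    have hT' : T ≠ ∅ := (Finset.mem_erase.mp hT).1
    rw [← Finset.sum_mul]
    congr 1
    simp only [hc, hT', if_false, hC]
    have : r ^ T.card ≠ 0 := by positivity
    field_simp
  have hg : ∀ y ∈ B, wp r c univ y = - A.card := by
    intro y hy
    have h1 := hid y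
    have h2 : ∑ x ∈ A, ∏ w ∈ E x, (1 + sgn (z x w) * sgn (y w)) = 0 := by
      refine Finset.sum_eq_zero fun x hx => ?_
      obtain ⟨w, hw, hne⟩ := hcon x hx y hy
      refine Finset.prod_eq_zero hw ?_
      cases h3 : z x w <;> cases h4 : y w <;> simp_all [sgn]
    rw [h2] at h1
    linarith
  -- the upper bound by hypercontractivity
  have hhyp := hyper (W := W) j hj1 r (by rw [hr2]; field_simp; norm_num) univ c
  set Sc := ∑ T ∈ (univ : Finset W).powerset, c T ^ 2 with hSc
  have hlow : (B.card : ℝ) * (A.card : ℝ) ^ (2 * j) ≤ ∑ y, wp r c univ y ^ (2 * j) := by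
    calc (B.card : ℝ) * (A.card : ℝ) ^ (2 * j) = ∑ y ∈ B, wp r c univ y ^ (2 * j) := by
          rw [Finset.sum_congr rfl (fun y hy => by rw [hg y hy]), Finset.sum_const, nsmul_eq_mul]
          congr 1
          rw [pow_mul, pow_mul]; ring
      _ ≤ ∑ y, wp r c univ y ^ (2 * j) := by
          apply Finset.sum_le_sum_of_subset_of_nonneg (Finset.subset_univ _)
          intro y _ _
          rw [pow_mul]; positivity
  have hB0 : 0 < B.card := by
    rcases Nat.eq_zero_or_pos B.card with h | h
    · rw [h] at hB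
      have : 0 < 2 ^ (Fintype.card W) := by positivity
      omega
    · exact h
  have hB0' : (0:ℝ) < B.card := by exact_mod_cast hB0
  have hB' : (2:ℝ) ^ (Fintype.card W) ≤ 2 ^ κ * B.card := by exact_mod_cast hB
  have hSc0 : 0 ≤ Sc := Finset.sum_nonneg fun T _ => sq_nonneg _
  have h1 : (A.card : ℝ) ^ (2 * j) ≤ (4 * Sc) ^ j := by
    have h2 : (B.card : ℝ) * (A.card : ℝ) ^ (2 * j) ≤ B.card * (4 * Sc) ^ j := by
      calc (B.card : ℝ) * (A.card : ℝ) ^ (2 * j) ≤ 2 ^ (Fintype.card W) * Sc ^ j :=
            hlow.trans hhyp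
        _ ≤ (2 ^ κ * B.card) * Sc ^ j := mul_le_mul_of_nonneg_right hB' (by positivity)
        _ ≤ (4 ^ j * B.card) * Sc ^ j := by
            apply mul_le_mul_of_nonneg_right _ (by positivity)
            apply mul_le_mul_of_nonneg_right _ (by positivity)
            calc (2:ℝ) ^ κ ≤ 2 ^ (2 * j) := pow_le_pow_right₀ (by norm_num) hj2
              _ = 4 ^ j := by rw [pow_mul]; norm_num
        _ = B.card * (4 * Sc) ^ j := by rw [mul_pow]; ring
    exact le_of_mul_le_mul_left h2 hB0'
  have h2 : (A.card : ℝ) ^ 2 ≤ 4 * Sc := by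
    rw [pow_mul] at h1
    exact (pow_le_pow_iff_left₀ (by positivity) (by positivity) (by omega)).mp h1
  -- the bound on the coefficients
  set s : ℝ := 8 * j / M with hs
  have hs0 : 0 ≤ s := by positivity
  have hcT : ∀ T ∈ (univ : Finset W).powerset, c T ^ 2 ≤
      2 * A.card * (∑ x ∈ A, if T ≠ ∅ ∧ T ⊆ E x then s ^ T.card else 0) := by
    intro T _
    by_cases hT : T = ∅
    · simp only [hc, hT, if_true]
      have : (0:ℝ) ^ 2 = 0 := by norm_num
      rw [this]
      apply mul_nonneg (by positivity)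
      exact Finset.sum_nonneg fun x _ => by split_ifs <;> positivity
    · have hTne : T.Nonempty := Finset.nonempty_iff_ne_empty.mpr hT
      set N : ℝ := ((A.filter (fun x => T ⊆ E x)).card : ℝ) with hN
      have h3 : |C T| ≤ N := by
        calc |C T| ≤ ∑ x ∈ A, |if T ⊆ E x then ∏ w ∈ T, sgn (z x w) else 0| :=
              Finset.abs_sum_le_sum_abs _ _
          _ ≤ ∑ x ∈ A, (if T ⊆ E x then (1:ℝ) else 0) := by
              refine Finset.sum_le_sum fun x _ => ?_
              split_ifs
              · rw [Finset.abs_prod]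
                refine le_of_eq (Finset.prod_eq_one fun w _ => ?_)
                cases z x w <;> simp [sgn]
              · simp
          _ = N := by rw [hN, Finset.card_filter]; push_cast; rfl
      have h4 : N * (M:ℝ) ^ T.card ≤ 2 * 2 ^ T.card * A.card := by
        have := hspread T hTne
        rw [hN]
        exact_mod_cast this
      have h5 : C T ^ 2 ≤ N * N := by
        rw [← sq_abs, sq]
        exact mul_le_mul h3 h3 (abs_nonneg _) (by positivity)
      have h6 : N ≤ 2 * A.card * (2 / M) ^ T.card := by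
        rw [div_pow, ← mul_div_assoc, le_div_iff₀ (by positivity)]
        linarith
      have h7 : (∑ x ∈ A, if T ≠ ∅ ∧ T ⊆ E x then s ^ T.card else 0) = N * s ^ T.card := by
        have : ∀ x ∈ A, (if T ≠ ∅ ∧ T ⊆ E x then s ^ T.card else 0)
            = (if T ⊆ E x then (1:ℝ) else 0) * s ^ T.card := by
          intro x _
          by_cases h : T ⊆ E x <;> simp [h, hT]
        rw [Finset.sum_congr rfl this, ← Finset.sum_mul, hN, Finset.card_filter]
        push_cast
        rfl
      rw [h7]
      simp only [hc, hT, if_false]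
      rw [mul_pow, inv_pow, ← pow_mul, mul_comm T.card 2, pow_mul, hr2]
      have h8 : ((1 / (4 * (j:ℝ))) ^ T.card)⁻¹ = (4 * j) ^ T.card := by
        rw [one_div, inv_pow, inv_inv]
      rw [h8]
      calc (4 * (j:ℝ)) ^ T.card * C T ^ 2 ≤ (4 * (j:ℝ)) ^ T.card * (N * N) :=
            mul_le_mul_of_nonneg_left h5 (by positivity)
        _ ≤ (4 * (j:ℝ)) ^ T.card * (N * (2 * A.card * (2 / M) ^ T.card)) :=
            mul_le_mul_of_nonneg_left (mul_le_mul_of_nonneg_left h6 (by positivity))
              (by positivity)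
        _ = 2 * A.card * (N * ((4 * (j:ℝ)) ^ T.card * (2 / M) ^ T.card)) := by ring
        _ = 2 * A.card * (N * s ^ T.card) := by
            rw [← mul_pow, show 4 * (j:ℝ) * (2 / M) = s by rw [hs]; ring]
  have h3 : Sc ≤ 2 * A.card * ∑ x ∈ A, ((1 + s) ^ (E x).card - 1) := by
    calc Sc ≤ ∑ T ∈ (univ : Finset W).powerset,
          2 * A.card * (∑ x ∈ A, if T ≠ ∅ ∧ T ⊆ E x then s ^ T.card else 0) :=
          Finset.sum_le_sum hcT
      _ = 2 * A.card * ∑ x ∈ A, ∑ T ∈ (univ : Finset W).powerset,
            (if T ≠ ∅ ∧ T ⊆ E x then s ^ T.card else 0) := by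
          rw [← Finset.mul_sum, Finset.sum_comm]
      _ = 2 * A.card * ∑ x ∈ A, ((1 + s) ^ (E x).card - 1) := by
          congr 1
          refine Finset.sum_congr rfl fun x _ => ?_
          have h4 : (1 + s) ^ (E x).card = ∑ T ∈ (E x).powerset, s ^ T.card := by
            have := Finset.prod_one_add (f := fun _ : W => s) (E x)
            simp only [Finset.prod_const] at this
            exact this
          rw [h4, ← Finset.sum_filter]
          have h5 : (univ : Finset W).powerset.filter (fun T => T ≠ ∅ ∧ T ⊆ E x)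
              = (E x).powerset.erase ∅ := by
            ext T
            simp only [Finset.mem_filter, Finset.mem_powerset, Finset.subset_univ, true_and,
              Finset.mem_erase]
          rw [h5]
          have h6 := Finset.add_sum_erase (E x).powerset (fun T => s ^ T.card)
            (Finset.empty_mem_powerset (E x))
          simp only [Finset.card_empty, pow_zero] at h6
          linarith
  have h4 : ∀ x ∈ A, (1 + s) ^ (E x).card - 1 ≤ 1 / 16 := by
    intro x hx
    have h5 : (1 + s) ^ (E x).card ≤ (1 + s) ^ q :=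
      pow_le_pow_right₀ (by linarith) (hq x hx)
    have h6 : (1 + s) ^ q ≤ Real.exp (s * q) := by
      calc (1 + s) ^ q ≤ (Real.exp s) ^ q := by
            apply pow_le_pow_left₀ (by linarith)
            have := Real.add_one_le_exp s
            linarith
        _ = Real.exp (s * q) := by rw [← Real.exp_nat_mul]; ring_nf
    have h7 : s * q ≤ 1 / 32 := by
      rw [hs, div_mul_eq_mul_div, div_le_iff₀ hM0']
      have h8 : (128:ℝ) * q * (κ + 1) ≤ M := by exact_mod_cast hM
      have h9 : (2:ℝ) * j ≤ κ + 1 := by exact_mod_cast hj3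
      have h10 : (128:ℝ) * q * (2 * j) ≤ 128 * q * (κ + 1) :=
        mul_le_mul_of_nonneg_left h9 (by positivity)
      linarith
    have h8 : Real.exp (s * q) ≤ 32 / 31 := by
      have h9 := Real.add_one_le_exp (-(s * q))
      have h10 : Real.exp (s * q) * Real.exp (-(s * q)) = 1 := by
        rw [← Real.exp_add]; simp
      have h11 : (31:ℝ) / 32 ≤ Real.exp (-(s * q)) := by linarith
      have h12 : 0 < Real.exp (s * q) := Real.exp_pos _
      have h13 : Real.exp (s * q) * (31 / 32) ≤ 1 := by
        rw [← h10]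
        exact mul_le_mul_of_nonneg_left h11 h12.le
      linarith
    linarith
  have h5 : ∑ x ∈ A, ((1 + s) ^ (E x).card - 1) ≤ A.card * (1 / 16) := by
    calc ∑ x ∈ A, ((1 + s) ^ (E x).card - 1) ≤ ∑ _x ∈ A, (1 / 16 : ℝ) := Finset.sum_le_sum h4
      _ = A.card * (1 / 16) := by rw [Finset.sum_const, nsmul_eq_mul]
  have h6 : Sc ≤ 2 * A.card * (A.card * (1 / 16)) :=
    h3.trans (mul_le_mul_of_nonneg_left h5 (by positivity))
  have h7 : (0:ℝ) < (A.card : ℝ) ^ 2 := pow_pos hA0' 2
  have h8 : 2 * (A.card : ℝ) * (A.card * (1 / 16)) = (A.card : ℝ) ^ 2 / 8 := by ring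
  rw [h8] at h6
  linarith

end Pool.Agent.V7H47.SM
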