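import Mathlib
import Pool.Agent.V7H47.SM.Circ
import Pool.Agent.V7H47.SM.Graph
import Pool.Agent.V7H47.SM.Pieces
import Pool.Agent.V7H47.SM.Tests

/-!
The lifted pebbling function and the walk down a small circuit.
-/

open Finset

set_option linter.unusedSectionVars false

namespace Pool.Agent.V7H47.SM

section
variable {V : Type} [Fintype V] [DecidableEq V] {M : ℕ}

/-- The variables: rules, sources and goals. -/
abbrev PV (V : Type) (M : ℕ) : Type := (V × Fin M × Fin M × Fin M) ⊕ (V × Fin M) ⊕ Fin M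

/-- `RR G X k v a`: label `a` of the vertex `v` (at height `k`) is derivable. -/
def RR (G : Geo V) (X : PV V M → Bool) : ℕ → V → Fin M → Prop
  | 0, v, a => X (Sum.inr (Sum.inl (v, a))) = true
  | k + 1, v, a => ∃ b₀ b₁, X (Sum.inl (v, a, b₀, b₁)) = true ∧
      RR G X k (G.ch false v) b₀ ∧ RR G X k (G.ch true v) b₁

open Classical in
/-- The function: some goal label of the root is derivable. -/
noncomputable def ff (G : Geo V) (X : PV V M → Bool) : Bool :=
  decide (∃ a, X (Sum.inr (Sum.inr a)) = true ∧ RR G X (G.ht G.root) G.root a)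

/-- The minimal positive input given by a labelling. -/
def posX (G : Geo V) (x : V → Fin M) : PV V M → Bool
  | Sum.inl (v, a, b₀, b₁) =>
      decide (0 < G.ht v ∧ x v = a ∧ x (G.ch false v) = b₀ ∧ x (G.ch true v) = b₁)
  | Sum.inr (Sum.inl (v, a)) => decide (G.ht v = 0 ∧ x v = a)
  | Sum.inr (Sum.inr a) => decide (x G.root = a)

/-- The maximal negative input given by a string. -/
def negX (G : Geo V) (y : (V × Fin M) → Bool) : PV V M → Bool
  | Sum.inl (v, a, b₀, b₁) => ! (y (G.ch false v, b₀) && y (G.ch true v, b₁) && ! y (v, a))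
  | Sum.inr (Sum.inl (v, a)) => y (v, a)
  | Sum.inr (Sum.inr a) => ! y (G.root, a)

lemma ff_pos (G : Geo V) (hht : Graded G) (x : V → Fin M) : ff G (posX G x) = true := by
  classical
  have h : ∀ k v, G.ht v = k → RR G (posX G x) k v (x v) := by
    intro k
    induction k with
    | zero => intro v hv; simp [RR, posX, hv]
    | succ k ih =>
      intro v hv
      refine ⟨x (G.ch false v), x (G.ch true v), by simp [posX, hv], ?_, ?_⟩
      · apply ih; have := hht false v (by omega); omega
      · apply ih; have := hht true v (by omega); omega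
  exact decide_eq_true ⟨x G.root, by simp [posX], h _ _ rfl⟩

lemma ff_neg (G : Geo V) (y : (V × Fin M) → Bool) : ff G (negX G y) = false := by
  classical
  have h : ∀ k v a, RR G (negX G y) k v a → y (v, a) = true := by
    intro k
    induction k with
    | zero => intro v a hv; simpa [RR, negX] using hv
    | succ k ih =>
      rintro v a ⟨b₀, b₁, h1, h2, h3⟩
      have h4 := ih _ _ h2
      have h5 := ih _ _ h3
      by_contra h6
      rw [Bool.not_eq_true] at h6
      simp [negX, h4, h5, h6] at h1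
  apply decide_eq_false
  rintro ⟨a, h1, h2⟩
  have h3 := h _ _ _ h2
  simp [negX, h3] at h1

/-- The vertices of a variable all lie in `F`. -/
def Inside (G : Geo V) (F : Finset V) : PV V M → Prop
  | Sum.inl (v, _, _, _) => v ∈ F ∧ G.ch false v ∈ F ∧ G.ch true v ∈ F
  | Sum.inr (Sum.inl (v, _)) => v ∈ F
  | Sum.inr (Sum.inr _) => G.root ∈ F

/-- A variable not inside `F` is one on few labellings. -/
lemma few (G : Geo V) {A : Finset (V → Fin M)} {F : Finset V} (hA : Dense A F) (p : PV V M)
    (hp : ¬ Inside G F p) : (A.filter (fun x => posX G x p = true)).card * M ≤ 2 * A.card := by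
  have key : ∀ (u : V) (a : Fin M), u ∉ F → (∀ x, posX G x p = true → x u = a) →
      (A.filter (fun x => posX G x p = true)).card * M ≤ 2 * A.card := by
    intro u a hu h
    have h1 : A.filter (fun x => posX G x p = true) ⊆ cyl A {u} (fun _ => a) := by
      intro x hx
      rw [mem_filter] at hx
      rw [mem_cyl]
      refine ⟨hx.1, fun v hv => ?_⟩
      rw [mem_singleton] at hv
      rw [hv]
      exact h x hx.2
    have h2 := hA {u} (by simpa using hu) (fun _ => a)
    simp only [card_singleton, pow_one] at h2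
    exact (Nat.mul_le_mul_right _ (card_le_card h1)).trans h2
  match p, hp, key with
  | Sum.inl (v, a, b₀, b₁), hp, key =>
    simp only [Inside, not_and_or] at hp
    rcases hp with hp | hp | hp
    · apply key v a hp
      intro y hy
      simp only [posX, decide_eq_true_eq] at hy
      exact hy.2.1
    · apply key _ b₀ hp
      intro y hy
      simp only [posX, decide_eq_true_eq] at hy
      exact hy.2.2.1
    · apply key _ b₁ hp
      intro y hy
      simp only [posX, decide_eq_true_eq] at hy
      exact hy.2.2.2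
  | Sum.inr (Sum.inl (v, a)), hp, key =>
    simp only [Inside] at hp
    apply key v a hp
    intro y hy
    simp only [posX, decide_eq_true_eq] at hy
    exact hy.2
  | Sum.inr (Sum.inr a), hp, key =>
    simp only [Inside] at hp
    apply key _ a hp
    intro y hy
    simp only [posX, decide_eq_true_eq] at hy
    exact hy

/-- The pebbling invariant forbids a violation at a variable inside `F`. -/
lemma legal (G : Geo V) {κ : ℕ} {F P : Finset V} {t : ℕ} (hP : Peb G κ F P t)
    (x : V → Fin M) (y : (V × Fin M) → Bool)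
    (hy : ∀ u ∈ F, (y (u, x u) = false ↔ u ∈ P)) (p : PV V M) (hp : Inside G F p)
    (h1 : posX G x p = true) : negX G y p = true := by
  match p, hp, h1 with
  | Sum.inl (v, a, b₀, b₁), hp, h1 =>
    obtain ⟨hv, hv0, hv1⟩ := hp
    simp only [posX, decide_eq_true_eq] at h1
    obtain ⟨h2, rfl, rfl, rfl⟩ := h1
    by_contra h3
    rw [Bool.not_eq_true] at h3
    simp only [negX, Bool.not_eq_false', Bool.and_eq_true, Bool.not_eq_true'] at h3
    obtain ⟨⟨h4, h5⟩, h6⟩ := h3
    have h7 := (hy v hv).mp h6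
    have h8 : G.ch false v ∉ P := fun h => by
      rw [(hy _ hv0).mpr h] at h4; exact absurd h4 (by decide)
    have h9 : G.ch true v ∉ P := fun h => by
      rw [(hy _ hv1).mpr h] at h5; exact absurd h5 (by decide)
    obtain ⟨_, l, h10, h11⟩ := hP.inv v (Or.inr h7)
    match l, h10, h11 with
    | [], h10, _ => simp at h10; omega
    | b :: l, _, h11 =>
      have h12 := h11 [b] (by simp) (by simp)
      simp only [desc, mem_sdiff, not_and, not_not] at h12
      cases b
      · exact h8 (h12 hv0)
      · exact h9 (h12 hv1)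
  | Sum.inr (Sum.inl (v, a)), hp, h1 =>
    simp only [posX, decide_eq_true_eq] at h1
    obtain ⟨h2, rfl⟩ := h1
    simp only [Inside] at hp
    simp only [negX]
    by_contra h3
    rw [Bool.not_eq_true] at h3
    have h4 := (hP.inv v (Or.inr ((hy v hp).mp h3))).1
    omega
  | Sum.inr (Sum.inr a), hp, h1 =>
    simp only [posX, decide_eq_true_eq] at h1
    subst h1
    simp only [Inside] at hp
    simp only [negX]
    rw [(hy _ hp).mpr (hP.root hp)]
    rfl

/-- The data for the walk: error sets with their properties. -/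
structure Errs (G : Geo V) (M κ κ' S : ℕ) (val : ℕ → (PV V M → Bool) → Bool) where
  XE : ℕ → Finset (V → Fin M)
  YE : ℕ → Finset ((V × Fin M) → Bool)
  monoX : ∀ i j, i ≤ j → XE i ⊆ XE j
  monoY : ∀ i j, i ≤ j → YE i ⊆ YE j
  smallX : ∀ i, (XE i).card * 2 ^ κ ≤ i * M ^ (Fintype.card V)
  smallY : ∀ i, (YE i).card * 2 ^ κ' ≤
    i * ((2 * Fintype.card (V × Fin M) + 1) ^ κ * 2 ^ (Fintype.card (V × Fin M)))
  HA : ∀ g x, val g (posX G x) = true → x ∉ XE (g + 1) →
    ∃ (A' : Finset (V → Fin M)) (F : Finset V), x ∈ A' ∧ F.card ≤ κ ∧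
      (∀ x' ∈ A', ∀ u ∈ F, x' u = x u) ∧ Dense A' F ∧
      ∀ x' ∈ A', val g (posX G x') = true ∧ x' ∉ XE g
  HB : ∀ g y, val g (negX G y) = false → y ∉ YE (g + 1) →
    ∀ E : Finset (V × Fin M), E.card ≤ κ → 2 ^ (Fintype.card (V × Fin M)) ≤
      2 ^ κ' * ((univ.filter (fun y' => val g (negX G y') = false ∧ y' ∉ YE g)).filter
        (fun y' => ∀ w ∈ E, y' w = y w)).card

lemma exists_errs (G : Geo V) (M κ κ' S : ℕ) (val : ℕ → (PV V M → Bool) → Bool) :
    Nonempty (Errs G M κ κ' S val) := by
  classical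
  have hX := fun A : Finset (V → Fin M) => pieces κ A.card A le_rfl
  have hY := fun B : Finset ((V × Fin M) → Bool) => patterns κ κ' B
  choose eX hX1 hX2 hX3 using hX
  choose eY hY1 hY2 hY3 using hY
  obtain ⟨XE, hX0, hXs⟩ : ∃ XE : ℕ → Finset (V → Fin M), XE 0 = ∅ ∧
      ∀ g, XE (g + 1) = XE g ∪ eX (univ.filter
        (fun x : V → Fin M => val g (posX G x) = true ∧ x ∉ XE g)) :=
    ⟨fun n => Nat.rec ∅ (fun g X => X ∪ eX (univ.filter
      (fun x : V → Fin M => val g (posX G x) = true ∧ x ∉ X))) n, rfl, fun g => rfl⟩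
  obtain ⟨YE, hY0, hYs⟩ : ∃ YE : ℕ → Finset ((V × Fin M) → Bool), YE 0 = ∅ ∧
      ∀ g, YE (g + 1) = YE g ∪ eY (univ.filter
        (fun y : (V × Fin M) → Bool => val g (negX G y) = false ∧ y ∉ YE g)) :=
    ⟨fun n => Nat.rec ∅ (fun g Y => Y ∪ eY (univ.filter
      (fun y : (V × Fin M) → Bool => val g (negX G y) = false ∧ y ∉ Y))) n, rfl, fun g => rfl⟩
  refine ⟨⟨XE, YE, ?_, ?_, ?_, ?_, ?_, ?_⟩⟩
  · intro i j hij
    induction j, hij using Nat.le_induction with
    | base => exact Subset.rfl
    | succ j _ ih => rw [hXs]; exact ih.trans subset_union_left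
  · intro i j hij
    induction j, hij using Nat.le_induction with
    | base => exact Subset.rfl
    | succ j _ ih => rw [hYs]; exact ih.trans subset_union_left
  · intro i
    induction i with
    | zero => simp [hX0]
    | succ i ih =>
      rw [hXs]
      calc (XE i ∪ eX (univ.filter (fun x => val i (posX G x) = true ∧ x ∉ XE i))).card * 2 ^ κ
          ≤ ((XE i).card + (eX (univ.filter
            (fun x => val i (posX G x) = true ∧ x ∉ XE i))).card) * 2 ^ κ :=
            Nat.mul_le_mul_right _ (card_union_le _ _)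
        _ = (XE i).card * 2 ^ κ + (eX (univ.filter
            (fun x => val i (posX G x) = true ∧ x ∉ XE i))).card * 2 ^ κ := by ring
        _ ≤ i * M ^ (Fintype.card V) + M ^ (Fintype.card V) := Nat.add_le_add ih (hX2 _)
        _ = (i + 1) * M ^ (Fintype.card V) := by ring
  · intro i
    induction i with
    | zero => simp [hY0]
    | succ i ih =>
      rw [hYs]
      calc (YE i ∪ eY (univ.filter (fun y => val i (negX G y) = false ∧ y ∉ YE i))).card * 2 ^ κ'
          ≤ ((YE i).card + (eY (univ.filter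
            (fun y => val i (negX G y) = false ∧ y ∉ YE i))).card) * 2 ^ κ' :=
            Nat.mul_le_mul_right _ (card_union_le _ _)
        _ = (YE i).card * 2 ^ κ' + (eY (univ.filter
            (fun y => val i (negX G y) = false ∧ y ∉ YE i))).card * 2 ^ κ' := by ring
        _ ≤ i * ((2 * Fintype.card (V × Fin M) + 1) ^ κ * 2 ^ (Fintype.card (V × Fin M))) +
            (2 * Fintype.card (V × Fin M) + 1) ^ κ * 2 ^ (Fintype.card (V × Fin M)) :=
            Nat.add_le_add ih (hY2 _)
        _ = (i + 1) * ((2 * Fintype.card (V × Fin M) + 1) ^ κ *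
              2 ^ (Fintype.card (V × Fin M))) := by ring
  · intro g x hx hxE
    rw [hXs, mem_union, not_or] at hxE
    obtain ⟨A', F, h1, h2, h3, h4, h5⟩ := hX3 _ x
      (mem_filter.mpr ⟨mem_univ _, hx, hxE.1⟩) hxE.2
    exact ⟨A', F, h2, h3, h4, h5, fun x' hx' => (mem_filter.mp (h1 hx')).2⟩
  · intro g y hy hyE E hE
    rw [hYs, mem_union, not_or] at hyE
    exact hY3 _ y (mem_filter.mpr ⟨mem_univ _, hy, hyE.1⟩) hyE.2 E hE

/-- The state of the walk at gate `g`. -/
def State (G : Geo V) {M κ κ' S : ℕ} {val : ℕ → (PV V M → Bool) → Bool}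
    (D : Errs G M κ κ' S val) (g t : ℕ) : Prop :=
  ∃ (A' : Finset (V → Fin M)) (F P : Finset V) (α : V → Fin M), A'.Nonempty ∧
    (∀ x ∈ A', val g (posX G x) = true ∧ x ∉ D.XE g) ∧ (∀ x ∈ A', ∀ u ∈ F, x u = α u) ∧
    Dense A' F ∧ F.card ≤ κ ∧ Peb G κ F P t ∧
    2 ^ (Fintype.card (V × Fin M)) ≤ 2 ^ κ' * (univ.filter (fun y => (val g (negX G y) = false ∧
      y ∉ D.YE g) ∧ ∀ u ∈ F, (y (u, α u) = false ↔ u ∈ P))).card

set_option maxHeartbeats 1000000 in
/-- One step of the walk. -/
lemma walk_step (G : Geo V) (hht : Graded G) {w κ κ' S : ℕ} (hexp : Expands G w)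
    (hw : 4 * κ + 1 ≤ w) (hκ' : 1 ≤ κ') {M : ℕ} (hM : 128 * (2 * κ) * (κ' + 1) + 8 ≤ M)
    {val : ℕ → (PV V M → Bool) → Bool} (D : Errs G M κ κ' S val)
    (N : ℕ) (W₁ W₂ : Wire (PV V M) ℕ) (A' : Finset (V → Fin M))
    (B' : Finset ((V × Fin M) → Bool)) (F P : Finset V) (α : V → Fin M) (t : ℕ)
    (hA' : A'.Nonempty) (hAN : ∀ x ∈ A', x ∉ D.XE N) (hBN : ∀ y ∈ B', y ∉ D.YE N)
    (hfix : ∀ x ∈ A', ∀ u ∈ F, x u = α u) (hdense : Dense A' F) (hF : F.card ≤ κ)
    (hPeb : Peb G κ F P (t + 1))
    (hB' : 2 ^ (Fintype.card (V × Fin M)) ≤ 2 ^ κ' * B'.card)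
    (hBF : ∀ y ∈ B', ∀ u ∈ F, (y (u, α u) = false ↔ u ∈ P))
    (hwire : ∀ x ∈ A', ∀ y ∈ B', ∃ W, (W = W₁ ∨ W = W₂) ∧
      W.eval (posX G x) (fun k => if k < N then val k (posX G x) else false) = true ∧
      W.eval (negX G y) (fun k => if k < N then val k (negX G y) else false) = false) :
    ∃ g < N, (W₁ = .gate g ∨ W₂ = .gate g) ∧ State G D g t := by
  classical
  have hM0 : 0 < M := by omega
  -- the good labellings
  set badW : Wire (PV V M) ℕ → Finset (V → Fin M) := fun W => match W with
    | .input p => if Inside G F p then ∅ else A'.filter (fun x => posX G x p = true)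
    | _ => ∅ with hbadW
  have hbadc : ∀ W, (badW W).card * M ≤ 2 * A'.card := by
    intro W
    cases W with
    | input p =>
      by_cases hp : Inside G F p
      · simp [hbadW, hp]
      · simp only [hbadW, hp, if_false]
        exact few G hdense p hp
    | const b => simp [hbadW]
    | gate g => simp [hbadW]
  set A₁ := A' \ (badW W₁ ∪ badW W₂) with hA₁
  have hA₁c : A'.card ≤ 2 * A₁.card := by
    have h1 : A'.card ≤ A₁.card + (badW W₁ ∪ badW W₂).card := by
      have := card_le_card (show A' ⊆ A₁ ∪ (badW W₁ ∪ badW W₂) by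
        intro x hx
        rw [mem_union, hA₁, mem_sdiff]
        by_cases h : x ∈ badW W₁ ∪ badW W₂
        · right; exact h
        · left; exact ⟨hx, h⟩)
      exact this.trans (card_union_le _ _)
    have h2 := card_union_le (badW W₁) (badW W₂)
    have h3 : (badW W₁).card * 8 ≤ 2 * A'.card :=
      (Nat.mul_le_mul_left _ (by omega)).trans (hbadc W₁)
    have h4 : (badW W₂).card * 8 ≤ 2 * A'.card :=
      (Nat.mul_le_mul_left _ (by omega)).trans (hbadc W₂)
    omega
  have hA₁ne : A₁.Nonempty := by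
    rw [← card_pos]
    have := hA'.card_pos
    omega
  -- the pieces of the children
  have hpc : ∀ g x, ∃ (A'' : Finset (V → Fin M)) (F'' : Finset V), F''.card ≤ κ ∧
      (val g (posX G x) = true → x ∉ D.XE (g + 1) → x ∈ A'' ∧
      (∀ x' ∈ A'', ∀ u ∈ F'', x' u = x u) ∧ Dense A'' F'' ∧
      ∀ x' ∈ A'', val g (posX G x') = true ∧ x' ∉ D.XE g) := by
    intro g x
    by_cases h1 : val g (posX G x) = true
    · by_cases h2 : x ∉ D.XE (g + 1)
      · obtain ⟨A'', F'', h3, h4, h5, h6, h7⟩ := D.HA g x h1 h2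
        exact ⟨A'', F'', h4, fun _ _ => ⟨h3, h5, h6, h7⟩⟩
      · exact ⟨∅, ∅, by simp, fun _ h => absurd h h2⟩
    · exact ⟨∅, ∅, by simp, fun h => absurd h h1⟩
  choose pA pF hpF hpc using hpc
  set WF : Wire (PV V M) ℕ → (V → Fin M) → Finset V := fun W x => match W with
    | .gate g => pF g x
    | _ => ∅ with hWF
  have hWFc : ∀ W x, (WF W x).card ≤ κ := by
    intro W x
    cases W with
    | input p => simp [hWF]
    | const b => simp [hWF]
    | gate g => exact hpF g x
  set J : (V → Fin M) → Finset V := fun x => F ∪ (WF W₁ x ∪ WF W₂ x) with hJ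
  have hJc : ∀ x, (J x).card ≤ 3 * κ := by
    intro x
    have h1 := card_union_le F (WF W₁ x ∪ WF W₂ x)
    have h2 := card_union_le (WF W₁ x) (WF W₂ x)
    have h3 := hWFc W₁ x
    have h4 := hWFc W₂ x
    simp only [hJ]
    omega
  have hround : ∀ x, ∃ P' : Finset V, (∀ u ∈ F, (u ∈ P' ↔ u ∈ P)) ∧ Peb G κ (J x) P' t :=
    fun x => Peb.round hht hexp hw hPeb hF (hJc x) subset_union_left
  choose P' hP'1 hP'2 using hround
  -- the tests
  set E : (V → Fin M) → Finset (V × Fin M) :=
    fun x => (J x \ F).image (fun u => (u, x u)) with hE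
  set z : (V → Fin M) → (V × Fin M) → Bool := fun x p => decide (p.1 ∉ P' x) with hz
  have hEc : ∀ x ∈ A₁, (E x).card ≤ 2 * κ := by
    intro x _
    refine card_image_le.trans ?_
    have h1 : J x \ F ⊆ WF W₁ x ∪ WF W₂ x := by
      intro u hu
      simp only [hJ, mem_sdiff, mem_union] at hu
      rw [mem_union]
      exact hu.1.resolve_left hu.2
    have h2 := (card_le_card h1).trans (card_union_le _ _)
    have h3 := hWFc W₁ x
    have h4 := hWFc W₂ x
    omega
  have hspread : ∀ T : Finset (V × Fin M), T.Nonempty →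
      (A₁.filter (fun x => T ⊆ E x)).card * M ^ T.card ≤ 2 * 2 ^ T.card * A₁.card := by
    intro T _
    by_cases hne : (A₁.filter (fun x => T ⊆ E x)).Nonempty
    swap
    · rw [not_nonempty_iff_eq_empty] at hne
      rw [hne]; simp
    obtain ⟨x₁, hx₁⟩ := hne
    have hx₁T := (mem_filter.mp hx₁).2
    have hgraph : ∀ x, T ⊆ E x → ∀ p ∈ T, p.1 ∉ F ∧ x p.1 = p.2 := by
      intro x hx p hp
      have h1 := hx hp
      rw [hE, mem_image] at h1
      obtain ⟨u, hu, rfl⟩ := h1
      exact ⟨(mem_sdiff.mp hu).2, rfl⟩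
    have hcard : (T.image Prod.fst).card = T.card := by
      apply card_image_of_injOn
      intro p hp p' hp' h
      have h1 := (hgraph x₁ hx₁T p hp).2
      have h2 := (hgraph x₁ hx₁T p' hp').2
      apply Prod.ext h
      rw [← h1, ← h2, h]
    have hsub : A₁.filter (fun x => T ⊆ E x) ⊆ cyl A' (T.image Prod.fst) x₁ := by
      intro x hx
      rw [mem_filter] at hx
      rw [mem_cyl]
      refine ⟨(mem_sdiff.mp hx.1).1, ?_⟩
      intro u hu
      rw [mem_image] at hu
      obtain ⟨p, hp, rfl⟩ := hu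
      rw [(hgraph x hx.2 p hp).2, (hgraph x₁ hx₁T p hp).2]
    have hdis : Disjoint (T.image Prod.fst) F := by
      rw [disjoint_left]
      intro u hu huF
      rw [mem_image] at hu
      obtain ⟨p, hp, rfl⟩ := hu
      exact (hgraph x₁ hx₁T p hp).1 huF
    have h1 := hdense _ hdis x₁
    rw [hcard] at h1
    calc (A₁.filter (fun x => T ⊆ E x)).card * M ^ T.card
        ≤ (cyl A' (T.image Prod.fst) x₁).card * M ^ T.card :=
          Nat.mul_le_mul_right _ (card_le_card hsub)
      _ ≤ 2 ^ T.card * A'.card := h1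
      _ ≤ 2 ^ T.card * (2 * A₁.card) := Nat.mul_le_mul_left _ hA₁c
      _ = 2 * 2 ^ T.card * A₁.card := by ring
  obtain ⟨x, hx, y, hy, hxy⟩ := exists_test B' κ' hκ' hB' A₁ hA₁ne E z (2 * κ) M hEc hM0
    (by omega) hspread
  have hxA' : x ∈ A' := (mem_sdiff.mp hx).1
  have hxbad : x ∉ badW W₁ ∧ x ∉ badW W₂ := by
    have := (mem_sdiff.mp hx).2
    rw [mem_union, not_or] at this
    exact this
  -- the truth values agree with the adversary
  have hagree : ∀ u ∈ J x, (y (u, x u) = false ↔ u ∈ P' x) := by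
    intro u hu
    by_cases huF : u ∈ F
    · rw [hfix x hxA' u huF, hBF y hy u huF, hP'1 x u huF]
    · have h1 := hxy (u, x u) (by
        rw [hE, mem_image]
        exact ⟨u, mem_sdiff.mpr ⟨hu, huF⟩, rfl⟩)
      rw [h1]
      simp [hz]
  have hagreeF : ∀ u ∈ F, (y (u, x u) = false ↔ u ∈ P' x) :=
    fun u hu => hagree u (by simp only [hJ, mem_union]; left; exact hu)
  have hPebF : Peb G κ F (P' x ∩ F) t := (hP'2 x).restrict (by
    intro u hu; simp only [hJ, mem_union]; left; exact hu)
  obtain ⟨W, hW, hW1, hW2⟩ := hwire x hxA' y hy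
  have hxbadW : x ∉ badW W := by
    rcases hW with rfl | rfl
    · exact hxbad.1
    · exact hxbad.2
  have hWJ : WF W x ⊆ J x := by
    intro u hu
    simp only [hJ, mem_union]
    rcases hW with rfl | rfl
    · right; left; exact hu
    · right; right; exact hu
  cases W with
  | const b =>
    simp only [Wire.eval] at hW1 hW2
    rw [hW1] at hW2
    exact absurd hW2 (by decide)
  | input p =>
    exfalso
    simp only [Wire.eval] at hW1 hW2
    by_cases hp : Inside G F p
    · have h1 := legal G hPebF x y (by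
        intro u hu
        rw [hagreeF u hu, mem_inter]
        simp [hu]) p hp hW1
      rw [h1] at hW2
      exact absurd hW2 (by decide)
    · apply hxbadW
      simp only [hbadW, hp, if_false, mem_filter]
      exact ⟨hxA', hW1⟩
  | gate g =>
    simp only [Wire.eval] at hW1 hW2
    by_cases hg : g < N
    swap
    · simp [hg] at hW1
    simp only [hg, if_true] at hW1 hW2
    have hxE : x ∉ D.XE (g + 1) := fun h => hAN x hxA' (D.monoX _ _ hg h)
    have hyE : y ∉ D.YE (g + 1) := fun h => hBN y hy (D.monoY _ _ hg h)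
    obtain ⟨h1, h2, h3, h4⟩ := hpc g x hW1 hxE
    have hWJ' : pF g x ⊆ J x := hWJ
    refine ⟨g, hg, ?_, ?_⟩
    · rcases hW with h | h
      · left; exact h.symm
      · right; exact h.symm
    · refine ⟨pA g x, pF g x, P' x ∩ pF g x, x, ⟨x, h1⟩, h4, h2, h3, hpF g x,
        (hP'2 x).restrict hWJ', ?_⟩
      have h5 := D.HB g y hW2 hyE ((pF g x).image (fun u => (u, x u)))
        (card_image_le.trans (hpF g x))
      refine h5.trans (Nat.mul_le_mul_left _ (card_le_card ?_))
      intro y' hy'
      rw [mem_filter, mem_filter] at hy'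
      rw [mem_filter]
      refine ⟨mem_univ _, hy'.1.2, ?_⟩
      intro u hu
      rw [hy'.2 (u, x u) (mem_image_of_mem _ hu), hagree u (hWJ' hu), mem_inter]
      simp [hu]

/-- The walk cannot start with enough time. -/
lemma no_state (G : Geo V) (hht : Graded G) {w κ κ' : ℕ} (hexp : Expands G w)
    (hw : 4 * κ + 1 ≤ w) (hκ' : 1 ≤ κ') {M : ℕ} (hM : 128 * (2 * κ) * (κ' + 1) + 8 ≤ M)
    (C : List (Gate (PV V M) ℕ))
    (D : Errs G M κ κ' C.length (fun g X => (vals X C).getD g false)) (g : ℕ) :
    ∀ t, g < C.length → (depths C).getD g 0 ≤ t → ¬ State G D g t := by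
  induction g using Nat.strong_induction_on with
  | _ g ih =>
    intro t hg ht hst
    have hd := depths_get C g hg
    obtain ⟨A', F, P, α, h1, h2, h3, h4, h5, h6, h7⟩ := hst
    -- the two wires
    obtain ⟨W₁, W₂, hW, hdep⟩ : ∃ W₁ W₂ : Wire (PV V M) ℕ,
        (∀ (X X' : PV V M → Bool) (v v' : ℕ → Bool), (C[g]).eval X v = true →
          (C[g]).eval X' v' = false → ∃ W, (W = W₁ ∨ W = W₂) ∧ W.eval X v = true ∧
            W.eval X' v' = false) ∧
        ∀ d : ℕ → ℕ, (C[g]).depth d = max (W₁.depth d) (W₂.depth d) + 1 := by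
      cases hC : C[g] with
      | and a b =>
        refine ⟨a, b, ?_, fun d => rfl⟩
        intro X X' v v' e1 e2
        simp only [Gate.eval, Bool.and_eq_true] at e1
        simp only [Gate.eval, Bool.and_eq_false_iff] at e2
        rcases e2 with e2 | e2
        · exact ⟨a, Or.inl rfl, e1.1, e2⟩
        · exact ⟨b, Or.inr rfl, e1.2, e2⟩
      | or a b =>
        refine ⟨a, b, ?_, fun d => rfl⟩
        intro X X' v v' e1 e2
        simp only [Gate.eval, Bool.or_eq_true] at e1
        simp only [Gate.eval, Bool.or_eq_false_iff] at e2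
        rcases e1 with e1 | e1
        · exact ⟨a, Or.inl rfl, e1, e2.1⟩
        · exact ⟨b, Or.inr rfl, e1, e2.2⟩
    rw [hdep] at hd
    obtain ⟨t', rfl⟩ : ∃ t', t = t' + 1 := ⟨t - 1, by omega⟩
    obtain ⟨g', hg', hgW, hst'⟩ := walk_step G hht hexp hw hκ' hM D g W₁ W₂ A'
      (univ.filter (fun y => ((vals (negX G y) C).getD g false = false ∧
      y ∉ D.YE g) ∧ ∀ u ∈ F, (y (u, α u) = false ↔ u ∈ P))) F P α t' h1
      (fun x hx => (h2 x hx).2) (fun y hy => (mem_filter.mp hy).2.1.2) h3 h4 h5 h6 h7
      (fun y hy => (mem_filter.mp hy).2.2) (by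
        intro x hx y hy
        apply hW
        · rw [← vals_get _ C g hg]; exact (h2 x hx).1
        · rw [← vals_get _ C g hg]; exact (mem_filter.mp hy).2.1.1)
    refine ih g' hg' t' (by omega) ?_ hst'
    have h8 : (depths C).getD g' 0 ≤ max (W₁.depth fun k => if k < g then (depths C).getD k 0 else 0)
        (W₂.depth fun k => if k < g then (depths C).getD k 0 else 0) := by
      rcases hgW with h | h
      · rw [h]; simp only [Wire.depth, hg', if_true]; exact le_max_left _ _
      · rw [h]; simp only [Wire.depth, hg', if_true]; exact le_max_right _ _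
    omega

/-- **The lower bound.** -/
theorem lower (G : Geo V) (hht : Graded G) {w κ κ' : ℕ} (hexp : Expands G w)
    (hw : 4 * κ + 1 ≤ w) (hκ' : 1 ≤ κ') {M : ℕ} (hM : 128 * (2 * κ) * (κ' + 1) + 8 ≤ M)
    (C : List (Gate (PV V M) ℕ)) (o : ℕ) (ho : o < C.length)
    (hS : 2 * C.length ≤ 2 ^ κ)
    (hS' : 2 * C.length * (2 * Fintype.card (V × Fin M) + 1) ^ κ ≤ 2 ^ κ')
    (hf : ∀ X, (vals X C).getD o false = ff G X) :
    G.ht G.root < 4 * κ * ((depths C).getD o 0 + 1) + 1 := by
  classical
  by_contra hcon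
  push Not at hcon
  have hM0 : 0 < M := by omega
  obtain ⟨D⟩ := exists_errs G M κ κ' C.length (fun g X => (vals X C).getD g false)
  set t := (depths C).getD o 0 with ht
  set A₀ : Finset (V → Fin M) := univ.filter (fun x => x ∉ D.XE C.length) with hA₀
  set B₀ : Finset ((V × Fin M) → Bool) := univ.filter (fun y => y ∉ D.YE C.length) with hB₀
  have hcA : Fintype.card (V → Fin M) = M ^ (Fintype.card V) := by simp
  have hcB : Fintype.card ((V × Fin M) → Bool) = 2 ^ (Fintype.card (V × Fin M)) := by
    rw [Fintype.card_fun, Fintype.card_bool]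
  have hA₀c : M ^ (Fintype.card V) ≤ 2 * A₀.card := by
    have h1 : A₀.card + (D.XE C.length).card = M ^ (Fintype.card V) := by
      rw [← hcA, ← card_univ, hA₀, filter_not, filter_mem_eq_inter, univ_inter]
      exact card_sdiff_add_card_eq_card (subset_univ _)
    have h2 := D.smallX C.length
    have h3 : (D.XE C.length).card * (2 * C.length) ≤ C.length * M ^ (Fintype.card V) :=
      (Nat.mul_le_mul_left _ hS).trans h2
    have h4 : 2 * (D.XE C.length).card ≤ M ^ (Fintype.card V) := by
      have h5 : C.length * (2 * (D.XE C.length).card) ≤ C.length * M ^ (Fintype.card V) := by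
        calc C.length * (2 * (D.XE C.length).card)
            = (D.XE C.length).card * (2 * C.length) := by ring
          _ ≤ _ := h3
      exact Nat.le_of_mul_le_mul_left h5 (by omega)
    omega
  have hB₀c : 2 ^ (Fintype.card (V × Fin M)) ≤ 2 * B₀.card := by
    have h1 : B₀.card + (D.YE C.length).card = 2 ^ (Fintype.card (V × Fin M)) := by
      rw [← hcB, ← card_univ, hB₀, filter_not, filter_mem_eq_inter, univ_inter]
      exact card_sdiff_add_card_eq_card (subset_univ _)
    have h2 := D.smallY C.length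
    set q := (2 * Fintype.card (V × Fin M) + 1) ^ κ with hq
    have hq0 : 0 < q := by rw [hq]; positivity
    have h3 : (D.YE C.length).card * (2 * C.length * q)
        ≤ C.length * (q * 2 ^ (Fintype.card (V × Fin M))) :=
      (Nat.mul_le_mul_left _ hS').trans h2
    have h4 : 2 * (D.YE C.length).card ≤ 2 ^ (Fintype.card (V × Fin M)) := by
      have h5 : (C.length * q) * (2 * (D.YE C.length).card)
          ≤ (C.length * q) * 2 ^ (Fintype.card (V × Fin M)) := by
        calc (C.length * q) * (2 * (D.YE C.length).card)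
            = (D.YE C.length).card * (2 * C.length * q) := by ring
          _ ≤ C.length * (q * 2 ^ (Fintype.card (V × Fin M))) := h3
          _ = _ := by ring
      have h6 : 0 < C.length * q := by
        have : 0 < C.length := by omega
        positivity
      exact Nat.le_of_mul_le_mul_left h5 h6
    omega
  have hA₀ne : A₀.Nonempty := by
    rw [← card_pos]
    have : 0 < M ^ (Fintype.card V) := by positivity
    omega
  have hdense : Dense A₀ ∅ := by
    intro T _ β
    rcases T.eq_empty_or_nonempty with h | h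
    · subst h; simp [cyl_empty]
    · have h1 : (cyl A₀ T β).card ≤ M ^ (Tᶜ).card :=
        card_le_of_fixed _ T β (fun x hx u hu => (mem_cyl.mp hx).2 u hu)
      have h2 : (Tᶜ).card + T.card = Fintype.card V := by
        rw [card_compl]
        have := card_le_univ T
        omega
      have h3 : 2 ≤ 2 ^ T.card := by
        calc 2 = 2 ^ 1 := by norm_num
          _ ≤ 2 ^ T.card := Nat.pow_le_pow_right (by norm_num) h.card_pos
      calc (cyl A₀ T β).card * M ^ T.card ≤ M ^ (Tᶜ).card * M ^ T.card :=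
            Nat.mul_le_mul_right _ h1
        _ = M ^ (Fintype.card V) := by rw [← pow_add, h2]
        _ ≤ 2 * A₀.card := hA₀c
        _ ≤ 2 ^ T.card * A₀.card := Nat.mul_le_mul_right _ h3
  have hPeb : Peb G κ ∅ ∅ (t + 1) := by
    refine ⟨Subset.rfl, by simp, ?_⟩
    intro v hv
    have hv' : v = G.root := by simpa using hv
    subst hv'
    refine ⟨hcon, List.replicate (G.ht G.root) true, by simp, ?_⟩
    intro w₁ _ _
    simp
  obtain ⟨g, hg, hgW, hst⟩ := walk_step G hht hexp hw hκ' hM D C.length (.gate o) (.gate o)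
    A₀ B₀ ∅ ∅ (fun _ => ⟨0, hM0⟩) t hA₀ne (fun x hx => (mem_filter.mp hx).2)
    (fun y hy => (mem_filter.mp hy).2) (by simp) hdense (by simp) hPeb
    (hB₀c.trans (Nat.mul_le_mul_right _ (by
      calc 2 = 2 ^ 1 := by norm_num
        _ ≤ 2 ^ κ' := Nat.pow_le_pow_right (by norm_num) hκ')))
    (by simp) (by
      intro x _ y _
      refine ⟨.gate o, Or.inl rfl, ?_, ?_⟩
      · simp only [Wire.eval, ho, if_true]
        rw [hf, ff_pos G hht]
      · simp only [Wire.eval, ho, if_true]
        rw [hf, ff_neg])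
  have hgo : g = o := by
    rcases hgW with h | h
    · simpa using h.symm
    · simpa using h.symm
  subst hgo
  exact no_state G hht hexp hw hκ' hM C D g t ho le_rfl hst

end

end Pool.Agent.V7H47.SM
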