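import Mathlib
import Pool.Agent.V7H47.SM.Walk

/-!
Layered circuits for the lifted pebbling function on the cylinder.
-/

open Finset

set_option linter.unusedSectionVars false

namespace Pool.Agent.V7H47.SM

/-! ### Straight-line programs with registers -/

section Exec
variable {ι P : Type} [DecidableEq P]

/-- Run a list of instructions; `(r, g)` stores the value of the gate `g` in the register `r`. -/
def exec (x : ι → Bool) : List (P × Gate ι P) → (P → Bool) → (P → Bool)
  | [], σ => σ
  | q :: L, σ => exec x L (Function.update σ q.1 (q.2.eval x σ))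

lemma exec_append (x : ι → Bool) (L L' : List (P × Gate ι P)) (σ : P → Bool) :
    exec x (L ++ L') σ = exec x L' (exec x L σ) := by
  induction L generalizing σ with
  | nil => rfl
  | cons q L ih => simp only [List.cons_append, exec]; exact ih _

/-- A loop over blocks; the block `blk q` computes `F q` into `tgt q` and may change `tmp`, and
`F q` only depends on the registers in `S`. -/
lemma exec_loop {α : Type} (x : ι → Bool) (blk : α → List (P × Gate ι P)) (tgt : α → P)
    (tmp : P) (S : P → Prop) (F : α → (P → Bool) → Bool)
    (hblk : ∀ q σ, exec x (blk q) σ (tgt q) = F q σ)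
    (hblk' : ∀ q σ r, r ≠ tgt q → r ≠ tmp → exec x (blk q) σ r = σ r)
    (hS : ∀ q, ¬ S (tgt q)) (htmp : ¬ S tmp) (htt : ∀ q, tgt q ≠ tmp)
    (hF : ∀ q σ σ', (∀ r, S r → σ r = σ' r) → F q σ = F q σ')
    (hinj : ∀ q q', tgt q = tgt q' → q = q') (l : List α) :
    ∀ σ : P → Bool, (∀ q ∈ l, exec x (l.flatMap blk) σ (tgt q) = F q σ) ∧
      (∀ r, (∀ q ∈ l, r ≠ tgt q) → r ≠ tmp → exec x (l.flatMap blk) σ r = σ r) := by
  classical
  induction l with
  | nil => intro σ; exact ⟨by simp, fun r _ _ => rfl⟩
  | cons q₀ l ih =>
    intro σ
    rw [List.flatMap_cons]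
    simp only [exec_append]
    obtain ⟨h1, h2⟩ := ih (exec x (blk q₀) σ)
    have hagree : ∀ r, S r → exec x (blk q₀) σ r = σ r := by
      intro r hr
      apply hblk'
      · rintro rfl; exact hS _ hr
      · rintro rfl; exact htmp hr
    refine ⟨?_, ?_⟩
    · intro q hq
      by_cases hql : q ∈ l
      · rw [h1 q hql]
        exact hF q _ _ hagree
      · have hq0 : q = q₀ := by
          rw [List.mem_cons] at hq
          exact hq.resolve_right hql
        subst hq0
        rw [h2 (tgt q) (fun q' hq' h => hql (by rw [hinj q q' h]; exact hq')) (htt q)]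
        exact hblk q σ
    · intro r hr hrt
      rw [h2 r (fun q hq => hr q (List.mem_cons_of_mem _ hq)) hrt]
      exact hblk' q₀ σ r (hr q₀ (by simp)) hrt

end Exec

section ToLayers
variable {ι G G' : Type}

/-- Rename the gates. -/
def Wire.map (e : G → G') : Wire ι G → Wire ι G'
  | .input i => .input i
  | .const b => .const b
  | .gate g => .gate (e g)

/-- Rename the gates. -/
def Gate.map (e : G → G') : Gate ι G → Gate ι G'
  | .and a b => .and (a.map e) (b.map e)
  | .or a b => .or (a.map e) (b.map e)

lemma Wire.eval_map (e : G → G') (a : Wire ι G) (x : ι → Bool) (v : G' → Bool) :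
    (a.map e).eval x v = a.eval x (fun g => v (e g)) := by
  cases a <;> rfl

lemma Gate.eval_map (e : G → G') (a : Gate ι G) (x : ι → Bool) (v : G' → Bool) :
    (a.map e).eval x v = a.eval x (fun g => v (e g)) := by
  cases a <;> simp [Gate.map, Gate.eval, Wire.eval_map]

variable {P : Type} [DecidableEq P]

/-- The layered circuit of a program. -/
def toLayers {w : ℕ} (e : P ≃ Fin w) (L : List (P × Gate ι P)) (t : ℕ) (i : Fin w) :
    Gate ι (Fin w) :=
  match L[t]? with
  | some q => if e q.1 = i then q.2.map e else .and (.gate i) (.const true)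
  | none => .and (.gate i) (.const true)

lemma layer_toLayers {w : ℕ} (e : P ≃ Fin w) (L : List (P × Gate ι P)) (x : ι → Bool) (t : ℕ)
    (ht : t ≤ L.length) (r : P) :
    layer x (toLayers e L) t (e r) = exec x (L.take t) (fun _ => false) r := by
  induction t generalizing r with
  | zero => rfl
  | succ t ih =>
    have hlt : t < L.length := ht
    have h1 : L.take (t + 1) = L.take t ++ [L[t]] := (List.take_concat_get' L t hlt).symm
    rw [h1, exec_append]
    simp only [exec, layer, toLayers]
    rw [List.getElem?_eq_getElem hlt]
    simp only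
    by_cases h : r = (L[t]).1
    · rw [if_pos (by rw [h]), Gate.eval_map]
      rw [h, Function.update_self]
      congr 1
      funext g
      exact ih hlt.le g
    · rw [if_neg (by intro h'; exact h (e.injective h').symm), Function.update_of_ne h]
      simp only [Gate.eval, Wire.eval, Bool.and_true]
      exact ih hlt.le r

end ToLayers

/-! ### The program for the cylinder -/

section Program
variable {ι : Type} {D w M : ℕ} [NeZero w] (e : PV (CV D w) M → ι)

/-- The registers: two banks of values, a temporary register and the output. -/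
abbrev Reg (w M : ℕ) : Type := (Bool × ZMod w × Fin M) ⊕ Bool

/-- the vertex at height `h` (or `D` if `h` is too large) -/
def vtx (D w h : ℕ) (s : ZMod w) : CV D w := (⟨min h D, by omega⟩, s)

/-- parity -/
def par : ℕ → Bool
  | 0 => false
  | h + 1 => ! par h

/-- The block for one vertex and one label. -/
noncomputable def blk (h : ℕ) (q : ZMod w × Fin M) : List (Reg w M × Gate ι (Reg w M)) :=
  (Sum.inl (par (h + 1), q.1, q.2), .and (.const false) (.const false)) ::
  ((univ : Finset (Fin M × Fin M)).toList.flatMap fun p =>
    [(Sum.inr false, .and (.input (e (Sum.inl (vtx D w (h + 1) q.1, q.2, p.1, p.2))))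
        (.gate (Sum.inl (par h, q.1, p.1)))),
     (Sum.inr false, .and (.gate (Sum.inr false)) (.gate (Sum.inl (par h, q.1 + 1, p.2)))),
     (Sum.inl (par (h + 1), q.1, q.2), .or (.gate (Sum.inl (par (h + 1), q.1, q.2)))
        (.gate (Sum.inr false)))])

/-- The block that loads a source. -/
def load (q : ZMod w × Fin M) : List (Reg w M × Gate ι (Reg w M)) :=
  [(Sum.inl (false, q.1, q.2), .and (.input (e (Sum.inr (Sum.inl (vtx D w 0 q.1, q.2)))))
    (.const true))]

/-- The program up to height `h`. -/
noncomputable def prog : ℕ → List (Reg w M × Gate ι (Reg w M))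
  | 0 => (univ : Finset (ZMod w × Fin M)).toList.flatMap (load (D := D) e)
  | h + 1 => prog h ++ (univ : Finset (ZMod w × Fin M)).toList.flatMap (blk (D := D) e h)

/-- The last block. -/
noncomputable def last : List (Reg w M × Gate ι (Reg w M)) :=
  (univ : Finset (Fin M)).toList.flatMap fun a =>
    [(Sum.inr false, .and (.input (e (Sum.inr (Sum.inr a)))) (.gate (Sum.inl (par D, 0, a)))),
     (Sum.inr true, .or (.gate (Sum.inr true)) (.gate (Sum.inr false)))]

variable {e}

open Classical in
lemma blk_inner (h : ℕ) (q : ZMod w × Fin M) (x : ι → Bool) (l : List (Fin M × Fin M)) :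
    ∀ σ : Reg w M → Bool,
    (exec x (l.flatMap fun p =>
      [(Sum.inr false, .and (.input (e (Sum.inl (vtx D w (h + 1) q.1, q.2, p.1, p.2))))
        (.gate (Sum.inl (par h, q.1, p.1)))),
       (Sum.inr false, .and (.gate (Sum.inr false)) (.gate (Sum.inl (par h, q.1 + 1, p.2)))),
       (Sum.inl (par (h + 1), q.1, q.2), .or (.gate (Sum.inl (par (h + 1), q.1, q.2)))
        (.gate (Sum.inr false)))]) σ (Sum.inl (par (h + 1), q.1, q.2))
      = (σ (Sum.inl (par (h + 1), q.1, q.2)) || decide (∃ p ∈ l,
        x (e (Sum.inl (vtx D w (h + 1) q.1, q.2, p.1, p.2))) = true ∧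
        σ (Sum.inl (par h, q.1, p.1)) = true ∧ σ (Sum.inl (par h, q.1 + 1, p.2)) = true))) ∧
    ∀ r, r ≠ Sum.inl (par (h + 1), q.1, q.2) → r ≠ Sum.inr false →
      exec x (l.flatMap fun p =>
      [(Sum.inr false, .and (.input (e (Sum.inl (vtx D w (h + 1) q.1, q.2, p.1, p.2))))
        (.gate (Sum.inl (par h, q.1, p.1)))),
       (Sum.inr false, .and (.gate (Sum.inr false)) (.gate (Sum.inl (par h, q.1 + 1, p.2)))),
       (Sum.inl (par (h + 1), q.1, q.2), .or (.gate (Sum.inl (par (h + 1), q.1, q.2)))
        (.gate (Sum.inr false)))]) σ r = σ r := by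
  have hpar : par (h + 1) ≠ par h := by simp only [par]; cases par h <;> simp
  induction l with
  | nil => intro σ; exact ⟨by simp [exec], fun r _ _ => rfl⟩
  | cons p l ih =>
    intro σ
    rw [List.flatMap_cons]
    simp only [exec_append]
    set σ' := exec x
      [(Sum.inr false, .and (.input (e (Sum.inl (vtx D w (h + 1) q.1, q.2, p.1, p.2))))
        (.gate (Sum.inl (par h, q.1, p.1)))),
       (Sum.inr false, .and (.gate (Sum.inr false)) (.gate (Sum.inl (par h, q.1 + 1, p.2)))),
       (Sum.inl (par (h + 1), q.1, q.2), .or (.gate (Sum.inl (par (h + 1), q.1, q.2)))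
        (.gate (Sum.inr false)))] σ with hσ'
    have h1 : σ' (Sum.inl (par (h + 1), q.1, q.2)) = (σ (Sum.inl (par (h + 1), q.1, q.2)) ||
        (x (e (Sum.inl (vtx D w (h + 1) q.1, q.2, p.1, p.2))) && σ (Sum.inl (par h, q.1, p.1)) &&
          σ (Sum.inl (par h, q.1 + 1, p.2)))) := by
      rw [hσ']
      simp only [exec, Gate.eval, Wire.eval, Function.update_self]
      simp
    have h2 : ∀ r, r ≠ Sum.inl (par (h + 1), q.1, q.2) → r ≠ Sum.inr false → σ' r = σ r := by
      intro r hr hr'
      rw [hσ']
      simp only [exec]
      rw [Function.update_of_ne hr, Function.update_of_ne hr', Function.update_of_ne hr']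
    obtain ⟨h3, h4⟩ := ih σ'
    refine ⟨?_, ?_⟩
    · rw [h3, h1]
      have h5 : ∀ s b, σ' (Sum.inl (par h, s, b)) = σ (Sum.inl (par h, s, b)) := by
        intro s b
        apply h2
        · intro h6
          simp only [Sum.inl.injEq, Prod.mk.injEq] at h6
          exact hpar h6.1.symm
        · simp
      simp only [h5]
      rw [Bool.eq_iff_iff]
      simp only [Bool.or_eq_true, Bool.and_eq_true, decide_eq_true_eq, List.mem_cons,
        exists_eq_or_imp]
      tauto
    · intro r hr hr'
      rw [h4 r hr hr', h2 r hr hr']

open Classical in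
lemma prog_correct (x : ι → Bool) : ∀ h ≤ D,
    (∀ s a, exec x (prog (D := D) (w := w) (M := M) e h) (fun _ => false)
      (Sum.inl (par h, s, a)) = decide (RR (cylinder D w) (fun p => x (e p)) h (vtx D w h s) a)) ∧
    exec x (prog (D := D) (w := w) (M := M) e h) (fun _ => false) (Sum.inr true) = false := by
  intro h
  induction h with
  | zero =>
    intro _
    have hl := exec_loop (α := ZMod w × Fin M) x (load (D := D) e)
      (fun q => Sum.inl (false, q.1, q.2)) (Sum.inr false) (fun _ => False)
      (fun q _ => x (e (Sum.inr (Sum.inl (vtx D w 0 q.1, q.2)))))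
      (fun q σ => by simp [load, exec, Gate.eval, Wire.eval])
      (fun q σ r hr _ => by simp only [load, exec]; rw [Function.update_of_ne hr])
      (fun _ => id) id (fun _ => by simp) (fun _ _ _ _ => rfl)
      (fun q q' h => by simpa [Prod.ext_iff] using h)
      (univ : Finset (ZMod w × Fin M)).toList (fun _ => false)
    refine ⟨fun s a => ?_, ?_⟩
    · have h1 := hl.1 (s, a) (by simp)
      simp only [prog, par]
      rw [h1, Bool.eq_iff_iff]
      simp only [decide_eq_true_eq]
      exact Iff.rfl
    · exact hl.2 _ (by simp) (by simp)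
  | succ h ih =>
    intro hD
    obtain ⟨ih1, ih2⟩ := ih (by omega)
    simp only [prog, exec_append]
    set σ := exec x (prog (D := D) (w := w) (M := M) e h) (fun _ => false) with hσ
    have hpar : par (h + 1) ≠ par h := by simp only [par]; cases par h <;> simp
    have hl := exec_loop (α := ZMod w × Fin M) x (blk (D := D) e h)
      (fun q => Sum.inl (par (h + 1), q.1, q.2)) (Sum.inr false)
      (fun r => ∃ s b, r = Sum.inl (par h, s, b))
      (fun q σ => decide (∃ p : Fin M × Fin M,
        x (e (Sum.inl (vtx D w (h + 1) q.1, q.2, p.1, p.2))) = true ∧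
        σ (Sum.inl (par h, q.1, p.1)) = true ∧ σ (Sum.inl (par h, q.1 + 1, p.2)) = true))
      (fun q σ => by
        simp only [blk, exec]
        rw [(blk_inner h q x _ _).1]
        rw [Bool.eq_iff_iff]
        have h5 : ∀ s b, Function.update σ (Sum.inl (par (h + 1), q.1, q.2))
            (Gate.eval x σ (.and (.const false) (.const false)))
            (Sum.inl (par h, s, b)) = σ (Sum.inl (par h, s, b)) := by
          intro s b
          apply Function.update_of_ne
          intro h6
          simp only [Sum.inl.injEq, Prod.mk.injEq] at h6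
          exact hpar h6.1.symm
        simp only [h5, Function.update_self]
        simp [Gate.eval, Wire.eval])
      (fun q σ r hr hr' => by
        simp only [blk, exec]
        rw [(blk_inner h q x _ _).2 r hr hr', Function.update_of_ne hr])
      (fun q => by
        rintro ⟨s, b, h6⟩
        simp only [Sum.inl.injEq, Prod.mk.injEq] at h6
        exact hpar h6.1)
      (by rintro ⟨s, b, h6⟩; simp at h6)
      (fun q => by simp)
      (fun q σ σ' hσ => by
        simp only [hσ _ ⟨_, _, rfl⟩])
      (fun q q' h => by simpa [Prod.ext_iff] using h)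
      (univ : Finset (ZMod w × Fin M)).toList σ
    refine ⟨fun s a => ?_, ?_⟩
    · rw [hl.1 (s, a) (by simp)]
      rw [Bool.eq_iff_iff]
      simp only [decide_eq_true_eq, ih1, Prod.exists]
      have hc0 : (cylinder D w).ch false (vtx D w (h + 1) s) = vtx D w h s := by
        simp only [cylinder, vtx]
        apply Prod.ext
        · apply Fin.ext; simp only; omega
        · simp
      have hc1 : (cylinder D w).ch true (vtx D w (h + 1) s) = vtx D w h (s + 1) := by
        simp only [cylinder, vtx]
        apply Prod.ext
        · apply Fin.ext; simp only; omega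
        · simp
      simp only [RR, hc0, hc1]
    · rw [hl.2 _ (by simp) (by simp)]
      exact ih2

open Classical in
lemma last_correct (x : ι → Bool) (l : List (Fin M)) : ∀ σ : Reg w M → Bool,
    exec x (l.flatMap fun a =>
    [(Sum.inr false, .and (.input (e (Sum.inr (Sum.inr a)))) (.gate (Sum.inl (par D, 0, a)))),
     (Sum.inr true, .or (.gate (Sum.inr true)) (.gate (Sum.inr false)))]) σ (Sum.inr true)
      = (σ (Sum.inr true) || decide (∃ a ∈ l, x (e (Sum.inr (Sum.inr a))) = true ∧
        σ (Sum.inl (par D, 0, a)) = true)) := by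
  induction l with
  | nil => intro σ; simp [exec]
  | cons a l ih =>
    intro σ
    rw [List.flatMap_cons]
    simp only [exec_append]
    rw [ih]
    simp only [exec, Gate.eval, Wire.eval, Function.update_self]
    have h5 : ∀ (b b' : Bool) (a' : Fin M),
        Function.update (Function.update σ (Sum.inr false : Reg w M) b) (Sum.inr true) b'
          (Sum.inl (par D, 0, a')) = σ (Sum.inl (par D, 0, a')) := by
      intro b b' a'
      rw [Function.update_of_ne (by simp), Function.update_of_ne (by simp)]
    simp only [h5]
    rw [Function.update_of_ne (by simp)]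
    rw [Bool.eq_iff_iff]
    simp only [Bool.or_eq_true, Bool.and_eq_true, decide_eq_true_eq, List.mem_cons,
      exists_eq_or_imp]
    tauto

/-- The number of instructions up to height `h`. -/
lemma prog_length (h : ℕ) : (prog (D := D) (w := w) (M := M) e h).length
    = w * M + h * (w * M * (3 * (M * M) + 1)) := by
  have h0 : Fintype.card (ZMod w × Fin M) = w * M := by
    rw [Fintype.card_prod, ZMod.card, Fintype.card_fin]
  induction h with
  | zero =>
    simp only [prog, List.length_flatMap, load, List.length_singleton]
    simp [h0]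
  | succ h ih =>
    simp only [prog, List.length_append, ih, List.length_flatMap, blk, List.length_cons,
      List.length_nil]
    simp [h0]
    ring

variable (e) in
/-- **The upper bound.** -/
theorem upper : ∃ (L : ℕ → Fin (2 * w * M + 2) → Gate ι (Fin (2 * w * M + 2)))
    (i : Fin (2 * w * M + 2)),
    ∀ x, layer x L (w * M + D * (w * M * (3 * (M * M) + 1)) + 2 * M) i
      = ff (cylinder D w) (fun p => x (e p)) := by
  classical
  have hcard : Fintype.card (Reg w M) = 2 * w * M + 2 := by
    rw [Fintype.card_sum, Fintype.card_prod, Fintype.card_prod, ZMod.card, Fintype.card_fin,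
      Fintype.card_bool]
    ring
  let E : Reg w M ≃ Fin (2 * w * M + 2) := Fintype.equivFinOfCardEq hcard
  set Pr := prog (D := D) (w := w) (M := M) e D ++ last (D := D) (w := w) (M := M) e with hPr
  have hlen : Pr.length = w * M + D * (w * M * (3 * (M * M) + 1)) + 2 * M := by
    rw [hPr, List.length_append, prog_length]
    congr 1
    simp only [last, List.length_flatMap, List.length_cons, List.length_nil]
    simp
    ring
  refine ⟨toLayers E Pr, E (Sum.inr true), fun x => ?_⟩
  rw [← hlen, layer_toLayers E Pr x Pr.length le_rfl, List.take_length, hPr, exec_append]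
  obtain ⟨h1, h2⟩ := prog_correct (e := e) (D := D) (w := w) (M := M) x D le_rfl
  rw [last, last_correct, h2]
  simp only [h1, Bool.false_or]
  rw [ff, Bool.eq_iff_iff]
  simp only [decide_eq_true_eq, Finset.mem_toList, mem_univ, true_and]
  have h3 : vtx D w D 0 = (cylinder D w).root := by
    simp only [vtx, cylinder]
    apply Prod.ext
    · apply Fin.ext; simp
    · rfl
  have h4 : (cylinder D w).ht (cylinder D w).root = D := by simp [cylinder]
  rw [h3, h4]

end Program

end Pool.Agent.V7H47.SM
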