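import Mathlib
import Pool.Agent.V7H47.SM.Layer

/-!
Substituting the variables of a circuit, and the choice of the parameters.
-/

open Finset

set_option linter.unusedSectionVars false

namespace Pool.Agent.V7H47.SM

section Subst
variable {ι κ G : Type}

/-- Replace the input variables by other variables or by the constant `0`. -/
def Wire.sub (φ : ι → Option κ) : Wire ι G → Wire κ G
  | .input i => match φ i with
    | some p => .input p
    | none => .const false
  | .const b => .const b
  | .gate g => .gate g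

/-- Replace the input variables by other variables or by the constant `0`. -/
def Gate.sub (φ : ι → Option κ) : Gate ι G → Gate κ G
  | .and a b => .and (a.sub φ) (b.sub φ)
  | .or a b => .or (a.sub φ) (b.sub φ)

/-- the corresponding input -/
def subIn (φ : ι → Option κ) (X : κ → Bool) (i : ι) : Bool :=
  match φ i with
  | some p => X p
  | none => false

lemma Wire.eval_sub (φ : ι → Option κ) (a : Wire ι G) (X : κ → Bool) (v : G → Bool) :
    (a.sub φ).eval X v = a.eval (subIn φ X) v := by
  cases a with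
  | input i =>
    simp only [Wire.sub, Wire.eval, subIn]
    cases φ i <;> rfl
  | const b => rfl
  | gate g => rfl

lemma Gate.eval_sub (φ : ι → Option κ) (a : Gate ι G) (X : κ → Bool) (v : G → Bool) :
    (a.sub φ).eval X v = a.eval (subIn φ X) v := by
  cases a <;> simp [Gate.sub, Gate.eval, Wire.eval_sub]

lemma Wire.depth_sub (φ : ι → Option κ) (a : Wire ι G) (d : G → ℕ) :
    (a.sub φ).depth d = a.depth d := by
  cases a with
  | input i =>
    simp only [Wire.sub, Wire.depth]
    cases φ i <;> rfl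
  | const b => rfl
  | gate g => rfl

lemma Gate.depth_sub (φ : ι → Option κ) (a : Gate ι G) (d : G → ℕ) :
    (a.sub φ).depth d = a.depth d := by
  cases a <;> simp [Gate.sub, Gate.depth, Wire.depth_sub]

lemma vals_sub (φ : ι → Option κ) (C : List (Gate ι ℕ)) (X : κ → Bool) :
    vals X (C.map (Gate.sub φ)) = vals (subIn φ X) C := by
  induction C using List.reverseRecOn with
  | nil => rfl
  | append_singleton C g ih =>
    rw [List.map_append, List.map_singleton, vals_snoc, vals_snoc, ih, Gate.eval_sub]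

lemma depths_sub (φ : ι → Option κ) (C : List (Gate ι ℕ)) :
    depths (C.map (Gate.sub φ)) = depths C := by
  induction C using List.reverseRecOn with
  | nil => rfl
  | append_singleton C g ih =>
    rw [List.map_append, List.map_singleton, depths_snoc, depths_snoc, ih, Gate.depth_sub]

end Subst

/-- The output gate has positive depth. -/
lemma depth_pos {ι : Type} (C : List (Gate ι ℕ)) (o : ℕ) (ho : o < C.length) :
    1 ≤ (depths C).getD o 0 := by
  rw [depths_get C o ho]
  cases C[o] <;> simp [Gate.depth]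

/-- **Monotone SC against monotone NC.** -/
theorem tradeoff (n κ : ℕ) (hn : 2 ≤ n) (hκ : 1 ≤ κ) :
    ∃ f : (Fin n → Bool) → Bool,
      (∃ (w T : ℕ) (L : ℕ → Fin w → Gate (Fin n) (Fin w)) (i : Fin w),
        w ≤ 2 ^ 14 * κ ^ 3 * Nat.log 2 n ∧ T ≤ 3 * n ∧ ∀ x, layer x L T i = f x) ∧
      ∀ (C : List (Gate (Fin n) ℕ)) (o : ℕ), o < C.length → 2 * C.length ≤ 2 ^ κ →
        (∀ x, (vals x C).getD o false = f x) →
        n ≤ 2 ^ 37 * κ ^ 8 * (Nat.log 2 n) ^ 3 * (depths C).getD o 0 := by
  classical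
  set ℓ := Nat.log 2 n with hℓ
  have hn0 : n ≠ 0 := by omega
  have hℓ1 : 1 ≤ ℓ := by
    rw [hℓ]; exact (Nat.le_log_iff_pow_le (by norm_num) hn0).mpr (by simpa using hn)
  set κ' := κ * (ℓ + 2) with hκ'
  set M := 128 * (2 * κ) * (κ' + 1) + 8 with hM
  set w := 4 * κ + 1 with hw
  have : NeZero w := ⟨by omega⟩
  set U := w * (M * (M * M) + M) with hU
  have hκℓ : 1 ≤ κ * κ * ℓ := Nat.mul_pos (Nat.mul_pos hκ hκ) hℓ1
  have hMle : M ≤ 1032 * (κ * κ * ℓ) := by
    have h1 : κ * (κ' + 1) = κ * κ * ℓ + 2 * (κ * κ) + κ := by rw [hκ']; ring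
    have h2 : κ * κ ≤ κ * κ * ℓ := Nat.le_mul_of_pos_right _ hℓ1
    have h3 : κ ≤ κ * κ := Nat.le_mul_of_pos_right _ hκ
    have h4 : M = 256 * (κ * (κ' + 1)) + 8 := by rw [hM]; ring
    omega
  have hwle : w ≤ 5 * κ := by omega
  have hM1 : 1 ≤ M := by omega
  have hMM : M ≤ M * (M * M) := Nat.le_mul_of_pos_right _ (by positivity)
  have hU1 : M ≤ U := by
    calc M ≤ M * (M * M) + M := Nat.le_add_left _ _
      _ ≤ U := by rw [hU]; exact Nat.le_mul_of_pos_left _ (by omega)
  have hUle : U ≤ 10 * κ * (1032 * (κ * κ * ℓ)) ^ 3 := by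
    calc U ≤ 5 * κ * (M * (M * M) + M * (M * M)) :=
          Nat.mul_le_mul hwle (Nat.add_le_add_left hMM _)
      _ = 10 * κ * M ^ 3 := by ring
      _ ≤ 10 * κ * (1032 * (κ * κ * ℓ)) ^ 3 :=
          Nat.mul_le_mul_left _ (Nat.pow_le_pow_left hMle 3)
  have hbig : ∀ d, 1 ≤ d → (4 * κ * (d + 1) + 2) * U + M ≤ 2 ^ 37 * κ ^ 8 * ℓ ^ 3 * d := by
    intro d hd
    have h1 : 4 * κ * (d + 1) + 2 ≤ 10 * (κ * d) := by
      have h2 : 4 * κ * (d + 1) = 4 * (κ * d) + 4 * κ := by ring
      have h3 : κ ≤ κ * d := Nat.le_mul_of_pos_right _ hd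
      omega
    have h2 : (4 * κ * (d + 1) + 2) * U + M ≤ 11 * (κ * d) * U := by
      have h3 : (4 * κ * (d + 1) + 2) * U ≤ 10 * (κ * d) * U := Nat.mul_le_mul_right _ h1
      have h4 : M ≤ κ * d * U := hU1.trans (Nat.le_mul_of_pos_left _ (Nat.mul_pos hκ hd))
      have h5 : 11 * (κ * d) * U = 10 * (κ * d) * U + κ * d * U := by ring
      omega
    calc (4 * κ * (d + 1) + 2) * U + M ≤ 11 * (κ * d) * U := h2
      _ ≤ 11 * (κ * d) * (10 * κ * (1032 * (κ * κ * ℓ)) ^ 3) := Nat.mul_le_mul_left _ hUle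
      _ = (110 * 1032 ^ 3) * (κ ^ 8 * ℓ ^ 3 * d) := by ring
      _ ≤ 2 ^ 37 * (κ ^ 8 * ℓ ^ 3 * d) := Nat.mul_le_mul_right _ (by norm_num)
      _ = 2 ^ 37 * κ ^ 8 * ℓ ^ 3 * d := by ring
  have hwidth : 2 * w * M + 2 ≤ 2 ^ 14 * κ ^ 3 * ℓ := by
    calc 2 * w * M + 2 ≤ 2 * (5 * κ) * (1032 * (κ * κ * ℓ)) + 2 * (κ * (κ * κ * ℓ)) := by
          apply Nat.add_le_add
          · exact Nat.mul_le_mul (Nat.mul_le_mul_left _ hwle) hMle
          · have : 1 ≤ κ * (κ * κ * ℓ) := Nat.mul_pos hκ hκℓ
            omega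
      _ = 10322 * (κ ^ 3 * ℓ) := by ring
      _ ≤ 2 ^ 14 * (κ ^ 3 * ℓ) := Nat.mul_le_mul_right _ (by norm_num)
      _ = 2 ^ 14 * κ ^ 3 * ℓ := by ring
  by_cases hsmall : n < U + M
  · -- few inputs: a constant function
    refine ⟨fun _ => false, ⟨1, 0, fun _ _ => .and (.const true) (.const true), 0, ?_,
      Nat.zero_le _, fun x => rfl⟩, ?_⟩
    · refine le_trans ?_ hwidth
      omega
    · intro C o ho _ _
      have h1 := depth_pos C o ho
      refine le_trans ?_ (hbig _ h1)
      have h2 : U ≤ (4 * κ * ((depths C).getD o 0 + 1) + 2) * U :=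
        Nat.le_mul_of_pos_left _ (by omega)
      omega
  push Not at hsmall
  -- the number of levels
  have hU0 : 0 < U := by omega
  set q := (n - M) / U with hq
  have hq1 : 1 ≤ q := by
    rw [hq]; exact (Nat.one_le_div_iff hU0).mpr (by omega)
  obtain ⟨D, hD⟩ : ∃ D, q = D + 1 := ⟨q - 1, by omega⟩
  have hDn : (D + 1) * U + M ≤ n := by
    have h1 : q * U ≤ n - M := Nat.div_mul_le_self _ _
    rw [hD] at h1
    omega
  have hnD : n < (D + 2) * U + M := by
    have h1 : n - M < (q + 1) * U := by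
      rw [hq, mul_comm]
      exact Nat.lt_mul_div_succ _ hU0
    rw [hD] at h1
    have h2 : (D + 1 + 1) * U = (D + 2) * U := by ring
    omega
  have hcardV : Fintype.card (CV D w) = (D + 1) * w := by
    rw [Fintype.card_prod, Fintype.card_fin, ZMod.card]
  have hcard : Fintype.card (PV (CV D w) M) ≤ Fintype.card (Fin n) := by
    rw [Fintype.card_fin]
    refine le_trans (le_of_eq ?_) hDn
    rw [hU]
    simp only [PV, Fintype.card_sum, Fintype.card_prod, Fintype.card_fin, ZMod.card]
    ring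
  obtain ⟨e⟩ := Function.Embedding.nonempty_of_card_le hcard
  refine ⟨fun x => ff (cylinder D w) (fun p => x (e p)), ?_, ?_⟩
  · obtain ⟨L, i, hL⟩ := upper (D := D) (w := w) (M := M) (fun p => e p)
    refine ⟨2 * w * M + 2, _, L, i, hwidth, ?_, hL⟩
    calc w * M + D * (w * M * (3 * (M * M) + 1)) + 2 * M
        ≤ 3 * ((D + 1) * U + M) := by
          have h1 : 3 * ((D + 1) * U + M) = D * (w * M * (3 * (M * M) + 1)) +
              2 * D * w * M + 3 * U + 3 * M := by rw [hU]; ring
          have h2 : w * M ≤ U := by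
            rw [hU]; exact Nat.mul_le_mul_left _ (Nat.le_add_left _ _)
          omega
      _ ≤ 3 * n := Nat.mul_le_mul_left _ hDn
  · intro C o ho hS hf
    -- pull the circuit back
    set φ : Fin n → Option (PV (CV D w) M) := fun i =>
      if h : ∃ p, e p = i then some h.choose else none with hφ
    have hφe : ∀ X p, subIn φ X (e p) = X p := by
      intro X p
      have h1 : ∃ p', e p' = e p := ⟨p, rfl⟩
      simp only [subIn, hφ, h1, dif_pos]
      rw [e.injective h1.choose_spec]
    set C' := C.map (Gate.sub φ) with hC'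
    have hlen : C'.length = C.length := by rw [hC', List.length_map]
    have hn2 : n < 2 ^ (ℓ + 1) := Nat.lt_pow_succ_log_self (by norm_num) n
    have hW : 2 * Fintype.card (CV D w × Fin M) + 1 ≤ 2 ^ (ℓ + 1) := by
      have h1 : Fintype.card (CV D w × Fin M) = (D + 1) * w * M := by
        rw [Fintype.card_prod, hcardV, Fintype.card_fin]
      have h2 : 2 * ((D + 1) * w * M) + M ≤ (D + 1) * U + M := by
        have h3 : (D + 1) * U = (D + 1) * w * (M * (M * M)) + (D + 1) * w * M := by
          rw [hU]; ring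
        have h4 : (D + 1) * w * M ≤ (D + 1) * w * (M * (M * M)) := Nat.mul_le_mul_left _ hMM
        omega
      rw [h1]
      omega
    have hlow := lower (cylinder D w) (cylinder_graded D w) (κ := κ) (κ' := κ')
      (cylinder_expands D w) le_rfl (Nat.mul_pos hκ (by omega)) (M := M) le_rfl C' o
      (by omega) (by rw [hlen]; exact hS) (by
        rw [hlen]
        calc 2 * C.length * (2 * Fintype.card (CV D w × Fin M) + 1) ^ κ
            ≤ 2 ^ κ * (2 ^ (ℓ + 1)) ^ κ :=
              Nat.mul_le_mul hS (Nat.pow_le_pow_left hW κ)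
          _ = 2 ^ κ' := by rw [← pow_mul, ← pow_add, hκ']; congr 1; ring) (by
        intro X
        rw [hC', vals_sub, hf]
        simp only [hφe])
    rw [hC', depths_sub] at hlow
    have hroot : (cylinder D w).ht (cylinder D w).root = D := by simp [cylinder]
    rw [hroot] at hlow
    have h1 := depth_pos C o ho
    refine le_trans ?_ (hbig _ h1)
    have h2 : (D + 2) * U ≤ (4 * κ * ((depths C).getD o 0 + 1) + 2) * U :=
      Nat.mul_le_mul_right _ (by omega)
    omega

end Pool.Agent.V7H47.SM
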